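import Pool.Agent.H323R2.Chg

/-!
The relation: the base `b` expansion of `t` is at most polynomially less sparse than that of `y`,
and its closure properties: the numbers `t` with this property form a ring which contains `1 / b`.
-/

set_option autoImplicit false

namespace Pool.Agent.N358.DR

open Polynomial Finset Pool.Agent.H323R2

/-- the nearest integers to `b ^ K * t` -/
noncomputable def rd (b : ℕ) (t : ℝ) (K : ℕ) : ℤ := round ((b : ℝ) ^ K * t)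

/-- the variation of the nearest integers -/
noncomputable def vt (b : ℕ) (t : ℝ) (N : ℕ) : ℤ := V b (rd b t) N

lemma rd_approx (b : ℕ) (t : ℝ) (K : ℕ) : |(rd b t K : ℝ) - (b : ℝ) ^ K * t| ≤ 1 / 2 := by
  rw [abs_sub_comm]
  exact abs_sub_round _

lemma vt_nonneg (b : ℕ) (t : ℝ) (N : ℕ) : 0 ≤ vt b t N := V_nonneg _ _ _

lemma vt_mono (b : ℕ) (t : ℝ) {M N : ℕ} (h : M ≤ N) : vt b t M ≤ vt b t N := V_mono _ _ h

/-- the variation is bounded by the norm of an approximating polynomial -/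
theorem vt_le_of_poly (b : ℕ) (hb : 2 ≤ b) (C0 s : ℝ) (Q : ℤ[X]) (M : ℕ)
    (h : |(Q.map (Int.castRingHom ℝ)).eval (1 / (b : ℝ)) - s| ≤ C0 / (b : ℝ) ^ M) :
    (vt b s M : ℝ) ≤ (6 * b + 7) * (n1 Q : ℝ) + 4 * (b + 1) * C0 := by
  have hb0 : (0 : ℝ) < b := by positivity
  have hb1 : (1 : ℝ) ≤ b := by exact_mod_cast (by omega : 1 ≤ b)
  have hbM : (0 : ℝ) < (b : ℝ) ^ M := by positivity
  set U' : ℕ → ℤ := rd b s with hU'
  set e := (Q.map (Int.castRingHom ℝ)).eval (1 / (b : ℝ)) with he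
  have hend : |(S b Q M : ℝ) - (b : ℝ) ^ M * s| ≤ (n1 Q : ℝ) + C0 := by
    have h3 := abs_S_sub_le b hb Q M
    rw [← he] at h3
    have h4 : |(b : ℝ) ^ M * (e - s)| ≤ C0 := by
      rw [abs_mul, abs_of_pos hbM]
      calc (b : ℝ) ^ M * |e - s| ≤ (b : ℝ) ^ M * (C0 / (b : ℝ) ^ M) :=
            mul_le_mul_of_nonneg_left h hbM.le
        _ = C0 := by field_simp
    calc |(S b Q M : ℝ) - (b : ℝ) ^ M * s|
        = |((S b Q M : ℝ) - (b : ℝ) ^ M * e) + (b : ℝ) ^ M * (e - s)| := by congr 1; ring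
      _ ≤ _ := (abs_add_le _ _).trans (add_le_add h3 h4)
  have hsum := sum_abs_S_sub_le b hb Q s M
  set E : ℕ → ℝ := fun K => |((U' K : ℤ) : ℝ) - (S b Q K : ℝ)| with hE
  have hEs : ∑ K ∈ range (M + 1), E K ≤ 6 * (n1 Q : ℝ) + 4 * C0 := by
    have h3 : ∑ K ∈ range (M + 1), E K ≤
        ∑ K ∈ range (M + 1), 2 * |(S b Q K : ℝ) - (b : ℝ) ^ K * s| :=
      Finset.sum_le_sum fun K _ => abs_round_sub_le _ _
    rw [← Finset.mul_sum] at h3
    linarith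
  have hE0 : ∀ K, 0 ≤ E K := fun K => abs_nonneg _
  have hd0 : (|dlt b U' 0| : ℝ) ≤ |(Q.coeff 0 : ℝ)| + E 0 := by
    simp only [dlt, hE]
    rw [S_zero]
    have := abs_add_le (((U' 0 : ℤ) : ℝ) - (Q.coeff 0 : ℝ)) (Q.coeff 0 : ℝ)
    rw [sub_add_cancel] at this
    linarith
  have hd : ∀ k : ℕ, (|dlt b U' (k + 1)| : ℝ) ≤ |(Q.coeff (k + 1) : ℝ)| + E (k + 1) + b * E k := by
    intro k
    have h3 : ((dlt b U' (k + 1) : ℤ) : ℝ) = (Q.coeff (k + 1) : ℝ) +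
        (((U' (k + 1) : ℤ) : ℝ) - (S b Q (k + 1) : ℝ)) - b * (((U' k : ℤ) : ℝ) - (S b Q k : ℝ)) := by
      rw [S_succ]; simp only [dlt]; push_cast; ring
    rw [h3]
    refine (abs_sub _ _).trans ?_
    rw [abs_mul, abs_of_pos hb0]
    have := abs_add_le (Q.coeff (k + 1) : ℝ) (((U' (k + 1) : ℤ) : ℝ) - (S b Q (k + 1) : ℝ))
    linarith
  have hV : (V b U' M : ℝ) ≤ (n1 Q : ℝ) + (b + 1) * ∑ K ∈ range (M + 1), E K := by
    have e0 : (V b U' M : ℝ) = ∑ k ∈ range M, (|dlt b U' (k + 1)| : ℝ) + (|dlt b U' 0| : ℝ) := by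
      unfold V
      push_cast
      rw [Finset.sum_range_succ']
    have e1 : ∑ n ∈ range (M + 1), |(Q.coeff n : ℝ)| =
        ∑ n ∈ range M, |(Q.coeff (n + 1) : ℝ)| + |(Q.coeff 0 : ℝ)| := Finset.sum_range_succ' _ _
    have e2 : ∑ n ∈ range (M + 1), |(Q.coeff n : ℝ)| ≤ (n1 Q : ℝ) := by
      have := sum_abs_coeff_le Q (range (M + 1))
      exact_mod_cast this
    have e3 : ∑ K ∈ range (M + 1), E K = ∑ k ∈ range M, E (k + 1) + E 0 :=
      Finset.sum_range_succ' _ _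
    have e4 : ∑ K ∈ range (M + 1), E K = ∑ k ∈ range M, E k + E M :=
      Finset.sum_range_succ _ _
    have e5 : ∑ k ∈ range M, (|dlt b U' (k + 1)| : ℝ) ≤
        ∑ k ∈ range M, (|(Q.coeff (k + 1) : ℝ)| + E (k + 1) + b * E k) :=
      Finset.sum_le_sum fun k _ => hd k
    rw [Finset.sum_add_distrib, Finset.sum_add_distrib, ← Finset.mul_sum] at e5
    have e6 : (b : ℝ) * ∑ k ∈ range M, E k ≤ b * ∑ K ∈ range (M + 1), E K := by
      apply mul_le_mul_of_nonneg_left _ hb0.le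
      rw [e4]; linarith [hE0 M]
    rw [e0]
    linarith
  have h7 : (b + 1 : ℝ) * ∑ K ∈ range (M + 1), E K ≤ (b + 1) * (6 * (n1 Q : ℝ) + 4 * C0) :=
    mul_le_mul_of_nonneg_left hEs (by positivity)
  have h8 : (vt b s M : ℝ) = (V b U' M : ℝ) := rfl
  rw [h8]
  linarith

/-- the variation of the nearest integers is minimal up to constants -/
theorem vt_le_V (b : ℕ) (hb : 2 ≤ b) (C0 t : ℝ) (U : ℕ → ℤ)
    (hU : ∀ K, |(U K : ℝ) - (b : ℝ) ^ K * t| ≤ C0) (M : ℕ) :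
    (vt b t M : ℝ) ≤ (6 * b + 7) * (V b U M : ℝ) + 4 * (b + 1) * C0 := by
  have h1 := vt_le_of_poly b hb C0 t (Pol b U M) M (approx_Pol b hb U t C0 hU M)
  have h2 : (n1 (Pol b U M) : ℝ) ≤ (V b U M : ℝ) := by exact_mod_cast n1_Pol_le b U M
  have h3 := mul_le_mul_of_nonneg_left h2 (show (0 : ℝ) ≤ 6 * b + 7 by positivity)
  linarith

/-- `t` is at most polynomially less sparse than `y` -/
def Dom (b : ℕ) (y t : ℝ) : Prop :=
  ∃ C : ℕ, ∀ N : ℕ, (vt b t N : ℝ) ≤ C * (1 + (vt b y (C * N) : ℝ)) ^ C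

lemma one_le_vt (b : ℕ) (t : ℝ) (N : ℕ) : (1 : ℝ) ≤ 1 + (vt b t N : ℝ) := by
  have : (0 : ℝ) ≤ (vt b t N : ℝ) := by exact_mod_cast vt_nonneg b t N
  linarith

lemma Dom.of {b : ℕ} {y t : ℝ} (C : ℝ) (m κ : ℕ)
    (h : ∀ N : ℕ, (vt b t N : ℝ) ≤ C * (1 + (vt b y (m * N) : ℝ)) ^ κ) : Dom b y t := by
  obtain ⟨C', hC'⟩ := exists_nat_ge C
  refine ⟨C' + m + κ, fun N => (h N).trans ?_⟩
  have h1 := one_le_vt b y (m * N)
  have h2 : (1 + (vt b y (m * N) : ℝ)) ≤ 1 + (vt b y ((C' + m + κ) * N) : ℝ) := by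
    have := vt_mono b y (M := m * N) (N := (C' + m + κ) * N) (Nat.mul_le_mul_right _ (by omega))
    have h3 : ((vt b y (m * N) : ℤ) : ℝ) ≤ ((vt b y ((C' + m + κ) * N) : ℤ) : ℝ) := by
      exact_mod_cast this
    linarith
  have h4 : C ≤ ((C' + m + κ : ℕ) : ℝ) := by
    push_cast
    have : (0 : ℝ) ≤ m := Nat.cast_nonneg _
    have : (0 : ℝ) ≤ κ := Nat.cast_nonneg _
    linarith
  have h5 : (1 + (vt b y (m * N) : ℝ)) ^ κ ≤
      (1 + (vt b y ((C' + m + κ) * N) : ℝ)) ^ (C' + m + κ) :=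
    (pow_le_pow_left₀ (by linarith) h2 _).trans (pow_le_pow_right₀ (h1.trans h2) (by omega))
  calc C * (1 + (vt b y (m * N) : ℝ)) ^ κ
      ≤ ((C' + m + κ : ℕ) : ℝ) * (1 + (vt b y (m * N) : ℝ)) ^ κ :=
        mul_le_mul_of_nonneg_right h4 (by positivity)
    _ ≤ _ := mul_le_mul_of_nonneg_left h5 (by positivity)

lemma Dom.refl (b : ℕ) (y : ℝ) : Dom b y y := by
  apply Dom.of 1 1 1
  intro N
  rw [one_mul, one_mul, pow_one]
  linarith

lemma Dom.trans {b : ℕ} {y s t : ℝ} (h1 : Dom b y s) (h2 : Dom b s t) : Dom b y t := by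
  obtain ⟨C1, h1⟩ := h1
  obtain ⟨C2, h2⟩ := h2
  apply Dom.of ((C2 : ℝ) * (1 + C1) ^ C2) (C1 * C2) (C1 * C2)
  intro N
  have a1 := h2 N
  have a2 := h1 (C2 * N)
  rw [← mul_assoc] at a2
  have a3 := one_le_vt b y (C1 * C2 * N)
  have a4 : (1 : ℝ) ≤ (1 + (vt b y (C1 * C2 * N) : ℝ)) ^ C1 := one_le_pow₀ a3
  have a5 : 1 + (vt b s (C2 * N) : ℝ) ≤ (1 + C1) * (1 + (vt b y (C1 * C2 * N) : ℝ)) ^ C1 := by
    linarith
  have a6 := one_le_vt b s (C2 * N)
  calc (vt b t N : ℝ) ≤ C2 * (1 + (vt b s (C2 * N) : ℝ)) ^ C2 := a1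
    _ ≤ C2 * ((1 + C1) * (1 + (vt b y (C1 * C2 * N) : ℝ)) ^ C1) ^ C2 := by
        apply mul_le_mul_of_nonneg_left _ (by positivity)
        exact pow_le_pow_left₀ (by linarith) a5 _
    _ = C2 * (1 + C1) ^ C2 * (1 + (vt b y (C1 * C2 * N) : ℝ)) ^ (C1 * C2) := by
        rw [mul_pow, ← pow_mul]; ring

lemma rd_eval_bound (b : ℕ) (hb : 2 ≤ b) (t : ℝ) (M : ℕ) :
    |((Pol b (rd b t) M).map (Int.castRingHom ℝ)).eval (1 / (b : ℝ)) - t| ≤
      (1 / 2) / (b : ℝ) ^ M := approx_Pol b hb _ t _ (rd_approx b t) M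

lemma n1_rd_le (b : ℕ) (t : ℝ) (M : ℕ) : (n1 (Pol b (rd b t) M) : ℝ) ≤ (vt b t M : ℝ) := by
  exact_mod_cast n1_Pol_le b (rd b t) M

theorem vt_add_le (b : ℕ) (hb : 2 ≤ b) (s t : ℝ) (M : ℕ) :
    (vt b (s + t) M : ℝ) ≤ (6 * b + 7) * ((vt b s M : ℝ) + vt b t M) + 4 * (b + 1) := by
  have h := vt_le_of_poly b hb 1 (s + t) (Pol b (rd b s) M + Pol b (rd b t) M) M (by
    rw [Polynomial.map_add, Polynomial.eval_add]
    have h1 := rd_eval_bound b hb s M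
    have h2 := rd_eval_bound b hb t M
    have h3 := (abs_add_le _ _).trans (add_le_add h1 h2)
    rw [show (1 : ℝ) / (b : ℝ) ^ M = 1 / 2 / (b : ℝ) ^ M + 1 / 2 / (b : ℝ) ^ M by ring]
    refine le_trans (le_of_eq ?_) h3
    congr 1
    ring)
  have h1 : (n1 (Pol b (rd b s) M + Pol b (rd b t) M) : ℝ) ≤ (vt b s M : ℝ) + vt b t M := by
    have h2 : (n1 (Pol b (rd b s) M + Pol b (rd b t) M) : ℝ) ≤
        (n1 (Pol b (rd b s) M) : ℝ) + n1 (Pol b (rd b t) M) := by exact_mod_cast n1_add_le _ _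
    linarith [n1_rd_le b s M, n1_rd_le b t M]
  have h3 := mul_le_mul_of_nonneg_left h1 (show (0 : ℝ) ≤ 6 * b + 7 by positivity)
  linarith

theorem vt_mul_le (b : ℕ) (hb : 2 ≤ b) (s t : ℝ) (M : ℕ) :
    (vt b (s * t) M : ℝ) ≤ (6 * b + 7) * ((vt b s M : ℝ) * vt b t M) +
      4 * (b + 1) * (1 + |s| + |t|) := by
  have hb1 : (1 : ℝ) ≤ b := by exact_mod_cast (by omega : 1 ≤ b)
  have hbM : (1 : ℝ) ≤ (b : ℝ) ^ M := one_le_pow₀ hb1
  have h := vt_le_of_poly b hb (1 + |s| + |t|) (s * t) (Pol b (rd b s) M * Pol b (rd b t) M) M (by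
    rw [Polynomial.map_mul, Polynomial.eval_mul]
    have h1 := rd_eval_bound b hb s M
    have h2 := rd_eval_bound b hb t M
    set u := ((Pol b (rd b s) M).map (Int.castRingHom ℝ)).eval (1 / (b : ℝ))
    set v := ((Pol b (rd b t) M).map (Int.castRingHom ℝ)).eval (1 / (b : ℝ))
    set δ : ℝ := 1 / (b : ℝ) ^ M with hδ
    have hδ0 : 0 < δ := by positivity
    have hδ1 : δ ≤ 1 := by
      rw [hδ, div_le_one (by linarith)]
      exact hbM
    have e1 : (1 / 2 : ℝ) / (b : ℝ) ^ M = δ / 2 := by rw [hδ]; ring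
    rw [e1] at h1 h2
    have e2 : u * v - s * t = (u - s) * (v - t) + s * (v - t) + (u - s) * t := by ring
    have h3 : |u * v - s * t| ≤ |u - s| * |v - t| + |s| * |v - t| + |u - s| * |t| := by
      rw [e2]
      refine (abs_add_le _ _).trans ?_
      rw [abs_mul (u - s) t]
      refine add_le_add ((abs_add_le _ _).trans ?_) le_rfl
      rw [abs_mul, abs_mul]
    have h4 : |u - s| * |v - t| ≤ δ := by
      calc |u - s| * |v - t| ≤ (δ / 2) * (δ / 2) :=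
            mul_le_mul h1 h2 (abs_nonneg _) (by positivity)
        _ ≤ δ := by nlinarith
    have h5 : |s| * |v - t| ≤ |s| * (δ / 2) := mul_le_mul_of_nonneg_left h2 (abs_nonneg _)
    have h6 : |u - s| * |t| ≤ (δ / 2) * |t| := mul_le_mul_of_nonneg_right h1 (abs_nonneg _)
    have e3 : (1 + |s| + |t|) / (b : ℝ) ^ M = (1 + |s| + |t|) * δ := by rw [hδ]; ring
    rw [e3]
    have := abs_nonneg s
    have := abs_nonneg t
    nlinarith)
  have h1 : (n1 (Pol b (rd b s) M * Pol b (rd b t) M) : ℝ) ≤ (vt b s M : ℝ) * vt b t M := by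
    have h2 : (n1 (Pol b (rd b s) M * Pol b (rd b t) M) : ℝ) ≤
        (n1 (Pol b (rd b s) M) : ℝ) * n1 (Pol b (rd b t) M) := by exact_mod_cast n1_mul_le _ _
    refine h2.trans ?_
    apply mul_le_mul (n1_rd_le b s M) (n1_rd_le b t M)
    · exact_mod_cast n1_nonneg _
    · exact_mod_cast vt_nonneg _ _ _
  have h3 := mul_le_mul_of_nonneg_left h1 (show (0 : ℝ) ≤ 6 * b + 7 by positivity)
  linarith

theorem vt_int_le (b : ℕ) (hb : 2 ≤ b) (n : ℤ) (M : ℕ) :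
    (vt b (n : ℝ) M : ℝ) ≤ (6 * b + 7) * |(n : ℝ)| := by
  have h := vt_le_of_poly b hb 0 (n : ℝ) (C n) M (by simp)
  rw [n1_C] at h
  push_cast at h
  linarith

lemma Dom.int (b : ℕ) (hb : 2 ≤ b) (y : ℝ) (n : ℤ) : Dom b y (n : ℝ) := by
  apply Dom.of ((6 * b + 7) * |(n : ℝ)|) 0 0
  intro N
  rw [pow_zero, mul_one]
  exact vt_int_le b hb n N

/-- a common form of two bounds -/
lemma dom_common {b : ℕ} {y s t : ℝ} (h1 : Dom b y s) (h2 : Dom b y t) :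
    ∃ C : ℕ, ∀ N : ℕ, (vt b s N : ℝ) ≤ C * (1 + (vt b y (C * N) : ℝ)) ^ C ∧
      (vt b t N : ℝ) ≤ C * (1 + (vt b y (C * N) : ℝ)) ^ C := by
  obtain ⟨C1, h1⟩ := h1
  obtain ⟨C2, h2⟩ := h2
  have key : ∀ (C : ℕ) (N : ℕ), C ≤ C1 + C2 → (C : ℝ) * (1 + (vt b y (C * N) : ℝ)) ^ C ≤
      ((C1 + C2 : ℕ) : ℝ) * (1 + (vt b y ((C1 + C2) * N) : ℝ)) ^ (C1 + C2) := by
    intro C N hC
    have a1 := one_le_vt b y (C * N)
    have a2 : (1 + (vt b y (C * N) : ℝ)) ≤ 1 + (vt b y ((C1 + C2) * N) : ℝ) := by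
      have := vt_mono b y (M := C * N) (N := (C1 + C2) * N) (Nat.mul_le_mul_right _ hC)
      have h3 : ((vt b y (C * N) : ℤ) : ℝ) ≤ ((vt b y ((C1 + C2) * N) : ℤ) : ℝ) := by
        exact_mod_cast this
      linarith
    have a3 : (1 + (vt b y (C * N) : ℝ)) ^ C ≤ (1 + (vt b y ((C1 + C2) * N) : ℝ)) ^ (C1 + C2) :=
      (pow_le_pow_left₀ (by linarith) a2 _).trans (pow_le_pow_right₀ (a1.trans a2) hC)
    have a4 : (C : ℝ) ≤ ((C1 + C2 : ℕ) : ℝ) := by exact_mod_cast hC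
    exact mul_le_mul a4 a3 (by positivity) (by positivity)
  exact ⟨C1 + C2, fun N => ⟨(h1 N).trans (key C1 N (by omega)), (h2 N).trans (key C2 N (by omega))⟩⟩

lemma Dom.add {b : ℕ} (hb : 2 ≤ b) {y s t : ℝ} (h1 : Dom b y s) (h2 : Dom b y t) :
    Dom b y (s + t) := by
  obtain ⟨C, h⟩ := dom_common h1 h2
  apply Dom.of ((6 * b + 7) * (2 * C) + 4 * (b + 1)) C C
  intro N
  have a1 := vt_add_le b hb s t N
  have a2 := h N
  have a3 : (1 : ℝ) ≤ (1 + (vt b y (C * N) : ℝ)) ^ C := one_le_pow₀ (one_le_vt b y _)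
  have a4 : (vt b s N : ℝ) + vt b t N ≤ 2 * C * (1 + (vt b y (C * N) : ℝ)) ^ C := by
    linarith [a2.1, a2.2]
  have a5 := mul_le_mul_of_nonneg_left a4 (show (0 : ℝ) ≤ 6 * b + 7 by positivity)
  have a6 := mul_le_mul_of_nonneg_left a3 (show (0 : ℝ) ≤ 4 * ((b : ℝ) + 1) by positivity)
  linarith

lemma Dom.mul {b : ℕ} (hb : 2 ≤ b) {y s t : ℝ} (h1 : Dom b y s) (h2 : Dom b y t) :
    Dom b y (s * t) := by
  obtain ⟨C, h⟩ := dom_common h1 h2
  apply Dom.of ((6 * b + 7) * (C * C) + 4 * (b + 1) * (1 + |s| + |t|)) C (C + C)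
  intro N
  have a1 := vt_mul_le b hb s t N
  have a2 := h N
  have a3 : (1 : ℝ) ≤ (1 + (vt b y (C * N) : ℝ)) ^ (C + C) := one_le_pow₀ (one_le_vt b y _)
  have a4 : (vt b s N : ℝ) * vt b t N ≤ (C * C) * (1 + (vt b y (C * N) : ℝ)) ^ (C + C) := by
    have s0 : (0 : ℝ) ≤ (vt b s N : ℝ) := by exact_mod_cast vt_nonneg _ _ _
    have t0 : (0 : ℝ) ≤ (vt b t N : ℝ) := by exact_mod_cast vt_nonneg _ _ _
    calc (vt b s N : ℝ) * vt b t N
        ≤ (C * (1 + (vt b y (C * N) : ℝ)) ^ C) * (C * (1 + (vt b y (C * N) : ℝ)) ^ C) :=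
          mul_le_mul a2.1 a2.2 t0 (s0.trans a2.1)
      _ = _ := by rw [pow_add]; ring
  have a5 := mul_le_mul_of_nonneg_left a4 (show (0 : ℝ) ≤ 6 * b + 7 by positivity)
  have a6 := mul_le_mul_of_nonneg_left a3
    (show (0 : ℝ) ≤ 4 * ((b : ℝ) + 1) * (1 + |s| + |t|) by positivity)
  linarith

lemma Dom.neg {b : ℕ} (hb : 2 ≤ b) {y t : ℝ} (h : Dom b y t) : Dom b y (-t) := by
  have := (Dom.int b hb y (-1)).mul hb h
  simpa using this

lemma Dom.pow {b : ℕ} (hb : 2 ≤ b) {y t : ℝ} (h : Dom b y t) (n : ℕ) : Dom b y (t ^ n) := by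
  induction n with
  | zero => simpa using Dom.int b hb y 1
  | succ n ih => rw [pow_succ]; exact ih.mul hb h

lemma Dom.poly {b : ℕ} (hb : 2 ≤ b) {y t : ℝ} (h : Dom b y t) (g : ℤ[X]) :
    Dom b y ((g.map (Int.castRingHom ℝ)).eval t) := by
  induction g using Polynomial.induction_on' with
  | add p q hp hq =>
    rw [Polynomial.map_add, Polynomial.eval_add]
    exact hp.add hb hq
  | monomial n a =>
    rw [Polynomial.map_monomial, Polynomial.eval_monomial]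
    exact (Dom.int b hb y a).mul hb (h.pow hb n)

/-- `1 / b` times `t` -/
lemma dom_div_base (b : ℕ) (hb : 2 ≤ b) (t : ℝ) : Dom b t (t / b) := by
  have hb0 : (b : ℝ) ≠ 0 := by positivity
  set U : ℕ → ℤ := fun K => if K = 0 then 0 else rd b t (K - 1) with hU
  have hap : ∀ K, |(U K : ℝ) - (b : ℝ) ^ K * (t / b)| ≤ 1 / 2 + |t| := by
    intro K
    rcases Nat.eq_zero_or_pos K with rfl | hK
    · simp only [hU, if_true, Int.cast_zero, pow_zero, one_mul, zero_sub, abs_neg]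
      rw [abs_div]
      have h1 : |t| / |(b : ℝ)| ≤ |t| := by
        apply div_le_self (abs_nonneg _)
        rw [abs_of_pos (by positivity)]
        exact_mod_cast (by omega : 1 ≤ b)
      linarith
    · obtain ⟨k, rfl⟩ : ∃ k, K = k + 1 := ⟨K - 1, by omega⟩
      have h1 := rd_approx b t k
      have h2 : (b : ℝ) ^ (k + 1) * (t / b) = (b : ℝ) ^ k * t := by
        rw [pow_succ]; field_simp
      simp only [hU, Nat.succ_ne_zero, if_false, Nat.add_sub_cancel]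
      rw [h2]
      have := abs_nonneg t
      linarith
  have hV : ∀ N, V b U N ≤ vt b t N := by
    intro N
    unfold vt V
    rw [Finset.sum_range_succ']
    have e0 : |dlt b U 0| = 0 := by simp [dlt, hU]
    rw [e0, add_zero, Finset.sum_range_succ]
    have e1 : ∀ k, dlt b U (k + 1) = dlt b (rd b t) k := by
      intro k
      rcases k with _ | k
      · simp [dlt, hU]
      · simp [dlt, hU]
    simp_rw [e1]
    have := abs_nonneg (dlt b (rd b t) N)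
    linarith
  apply Dom.of ((6 * b + 7) + 4 * (b + 1) * (1 / 2 + |t|)) 1 1
  intro N
  have h1 := vt_le_V b hb _ _ U hap N
  have h2 : (V b U N : ℝ) ≤ (vt b t N : ℝ) := by exact_mod_cast hV N
  rw [pow_one, one_mul]
  have h3 : (0 : ℝ) ≤ (vt b t N : ℝ) := by exact_mod_cast vt_nonneg _ _ _
  have h4 := mul_le_mul_of_nonneg_left h2 (show (0 : ℝ) ≤ 6 * b + 7 by positivity)
  have h5 : (0 : ℝ) ≤ 4 * ((b : ℝ) + 1) * (1 / 2 + |t|) := by positivity
  nlinarith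

/-- division by a prime -/
theorem dom_div_prime (p : ℕ) [Fact p.Prime] (b : ℕ) (hb : 2 ≤ b) (hbp : (b : ZMod p) ≠ 0)
    (j : ℕ) (F : ℤ[X]) (α : ZMod p) (hα : α ≠ 0)
    (hF : F.map (Int.castRingHom (ZMod p)) = C α * X ^ (p ^ j)) (hD : 1 ≤ F.natDegree)
    (t : ℝ) (ht : (F.map (Int.castRingHom ℝ)).eval t = 0) : Dom b t (t / p) := by
  have hp : p.Prime := Fact.out
  obtain ⟨C1, hC1, h1⟩ := step p b hb hbp j F α hα hF hD t (1 / 2) ht
  apply Dom.of ((6 * b + 7) * C1 + 4 * (b + 1) * (1 / 2 + 1)) (p ^ j) F.natDegree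
  intro N
  have h2 := (h1 (rd b t) (rd_approx b t) N).2
  have h3 := vt_le_V b hb _ _ (fun K => rd b t K / p)
    (approx_div p b hp.pos (rd b t) t _ (rd_approx b t)) N
  have h4 : (1 : ℝ) ≤ (1 + (V b (rd b t) (p ^ j * N) : ℝ)) ^ F.natDegree :=
    one_le_pow₀ (one_le_vt b t _)
  have h5 := mul_le_mul_of_nonneg_left h2 (show (0 : ℝ) ≤ 6 * b + 7 by positivity)
  have h6 := mul_le_mul_of_nonneg_left h4
    (show (0 : ℝ) ≤ 4 * ((b : ℝ) + 1) * (1 / 2 + 1) by positivity)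
  have h7 : (vt b t (p ^ j * N) : ℝ) = (V b (rd b t) (p ^ j * N) : ℝ) := rfl
  rw [h7]
  linarith

/-- If `t ^ n` is `p` times an algebraic integer, then `t / p` is at most polynomially less sparse
than `t`. -/
theorem dom_div_nilp (p n : ℕ) [Fact p.Prime] (hn : 1 ≤ n) (b : ℕ) (hb : 2 ≤ b)
    (hbp : ¬ p ∣ b) (t a : ℝ) (ha : IsIntegral ℤ a) (h : t ^ n = p * a) : Dom b t (t / p) := by
  obtain ⟨j, F, hF, hD, hroot⟩ := nilp_poly p n hn t a ha h
  exact dom_div_prime p b hb (by rwa [Ne, ZMod.natCast_eq_zero_iff]) j F 1 one_ne_zero hF hD t hroot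

/-- Division of algebraic integers by integers. -/
theorem dom_of_nat_mul (b : ℕ) (hb : 2 ≤ b) : ∀ (W : ℕ), W ≠ 0 → ∀ z : ℝ, IsIntegral ℤ z →
    Dom b ((W : ℝ) * z) z := by
  intro W
  induction W using Nat.recOnMul with
  | zero => intro h; exact absurd rfl h
  | one => intro _ z _; simpa using Dom.refl b z
  | prime p hp =>
    intro _ z hz
    have : Fact p.Prime := ⟨hp⟩
    have hp0 : (p : ℝ) ≠ 0 := by exact_mod_cast hp.ne_zero
    by_cases hpb : p ∣ b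
    · obtain ⟨c, hc⟩ := hpb
      have h1 : Dom b ((p : ℝ) * z) ((p : ℝ) * z / b) := dom_div_base b hb _
      have h2 := (Dom.int b hb ((p : ℝ) * z) (c : ℤ)).mul hb h1
      have hb0 : (b : ℝ) ≠ 0 := by positivity
      have hc0 : (c : ℝ) ≠ 0 := by
        intro h0
        apply hb0
        rw [hc]; push_cast; rw [h0, mul_zero]
      have e : ((c : ℤ) : ℝ) * ((p : ℝ) * z / b) = z := by
        rw [hc]; push_cast; field_simp
      rwa [e] at h2
    · have h1 := dom_div_nilp p 1 le_rfl b hb hpb ((p : ℝ) * z) z hz (by rw [pow_one])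
      have e : (p : ℝ) * z / p = z := by field_simp
      rwa [e] at h1
  | mul m n hm hn =>
    intro h z hz
    have hm0 : m ≠ 0 := fun h0 => h (by rw [h0, zero_mul])
    have hn0 : n ≠ 0 := fun h0 => h (by rw [h0, mul_zero])
    have h1 := hm hm0 ((n : ℝ) * z) (IsIntegral.mul (isIntegral_algebraMap (R := ℤ) (x := (n : ℤ)) |> fun h => by simpa using h) hz)
    have h2 := hn hn0 z hz
    have e : ((m * n : ℕ) : ℝ) * z = (m : ℝ) * ((n : ℝ) * z) := by push_cast; ring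
    rw [e]
    exact h1.trans h2

end Pool.Agent.N358.DR
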