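import Pool.Agent.N358.DR.Field

/-!
Digits: the number of places where two consecutive digits are not both `0` and not both `b - 1`,
and the failures of linear relations, in terms of the variation of the nearest integers.
-/

set_option autoImplicit false

namespace Pool.Agent.N358.DR

open Polynomial Finset Pool.Agent.H323R2

/-- the `k`-th digit of `y` after the point in base `b` -/
noncomputable def digit (b : ℕ) (y : ℝ) (k : ℕ) : ℤ := ⌊y * (b : ℝ) ^ k⌋ % (b : ℤ)

/-- the number of `k` in `[1, n]` for which the `k`-th and the `(k + 1)`-st digit of `y` are neither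
both `0` nor both `b - 1` -/
noncomputable def rough (b : ℕ) (y : ℝ) (n : ℕ) : ℕ :=
  ((Icc 1 n).filter (fun k => ¬ (digit b y k = 0 ∧ digit b y (k + 1) = 0) ∧
    ¬ (digit b y k = b - 1 ∧ digit b y (k + 1) = b - 1))).card

lemma digit_succ (b : ℕ) (hb : 2 ≤ b) (y : ℝ) (k : ℕ) :
    digit b y (k + 1) = ⌊y * (b : ℝ) ^ (k + 1)⌋ - b * ⌊y * (b : ℝ) ^ k⌋ := digit_eq b hb y k

/-- fractional parts -/
lemma fract_succ (b : ℕ) (hb : 2 ≤ b) (y : ℝ) (k : ℕ) :
    Int.fract (y * (b : ℝ) ^ (k + 1)) = b * Int.fract (y * (b : ℝ) ^ k) - digit b y (k + 1) := by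
  rw [digit_succ b hb]
  unfold Int.fract
  push_cast
  rw [pow_succ]
  ring

lemma rd_of_fract_lt (b : ℕ) (y : ℝ) (K : ℕ) (h : Int.fract (y * (b : ℝ) ^ K) < 1 / 2) :
    rd b y K = ⌊y * (b : ℝ) ^ K⌋ := by
  unfold rd
  rw [mul_comm, round_eq, Int.floor_eq_iff]
  have h1 := Int.floor_add_fract (y * (b : ℝ) ^ K)
  have h2 := Int.fract_nonneg (y * (b : ℝ) ^ K)
  constructor <;> linarith

lemma rd_of_fract_ge (b : ℕ) (y : ℝ) (K : ℕ) (h : 1 / 2 ≤ Int.fract (y * (b : ℝ) ^ K)) :
    rd b y K = ⌊y * (b : ℝ) ^ K⌋ + 1 := by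
  unfold rd
  rw [mul_comm, round_eq, Int.floor_eq_iff]
  have h1 := Int.floor_add_fract (y * (b : ℝ) ^ K)
  have h2 := Int.fract_lt_one (y * (b : ℝ) ^ K)
  push_cast
  constructor <;> linarith

lemma dlt_zero_of_zero (b : ℕ) (hb : 2 ≤ b) (y : ℝ) (K : ℕ) (h1 : digit b y (K + 1) = 0)
    (h2 : digit b y (K + 2) = 0) : dlt b (rd b y) (K + 1) = 0 := by
  have hb2 : (2 : ℝ) ≤ b := by exact_mod_cast hb
  have f1 := fract_succ b hb y K
  have f2 := fract_succ b hb y (K + 1)
  rw [h1] at f1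
  rw [show K + 1 + 1 = K + 2 from rfl, h2] at f2
  push_cast at f1 f2
  have n0 := Int.fract_nonneg (y * (b : ℝ) ^ K)
  have l2 := Int.fract_lt_one (y * (b : ℝ) ^ (K + 2))
  have n1 := Int.fract_nonneg (y * (b : ℝ) ^ (K + 1))
  have a1 : Int.fract (y * (b : ℝ) ^ (K + 1)) < 1 / 2 := by nlinarith
  have a0 : Int.fract (y * (b : ℝ) ^ K) < 1 / 2 := by nlinarith
  have e := digit_succ b hb y K
  simp only [dlt]
  rw [rd_of_fract_lt b y _ a1, rd_of_fract_lt b y _ a0, ← e, h1]

lemma dlt_zero_of_top (b : ℕ) (hb : 2 ≤ b) (y : ℝ) (K : ℕ) (h1 : digit b y (K + 1) = b - 1)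
    (h2 : digit b y (K + 2) = b - 1) : dlt b (rd b y) (K + 1) = 0 := by
  have hb2 : (2 : ℝ) ≤ b := by exact_mod_cast hb
  have f1 := fract_succ b hb y K
  have f2 := fract_succ b hb y (K + 1)
  rw [h1] at f1
  rw [show K + 1 + 1 = K + 2 from rfl, h2] at f2
  push_cast at f1 f2
  have l0 := Int.fract_lt_one (y * (b : ℝ) ^ K)
  have n2 := Int.fract_nonneg (y * (b : ℝ) ^ (K + 2))
  have l1 := Int.fract_lt_one (y * (b : ℝ) ^ (K + 1))
  have a1 : 1 / 2 ≤ Int.fract (y * (b : ℝ) ^ (K + 1)) := by nlinarith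
  have a0 : 1 / 2 ≤ Int.fract (y * (b : ℝ) ^ K) := by nlinarith
  have e := digit_succ b hb y K
  simp only [dlt]
  rw [rd_of_fract_ge b y _ a1, rd_of_fract_ge b y _ a0]
  rw [h1] at e
  linarith

lemma abs_dlt_rd_le (b : ℕ) (hb : 2 ≤ b) (y : ℝ) (K : ℕ) : |dlt b (rd b y) (K + 1)| ≤ b := by
  have hb2 : (2 : ℝ) ≤ b := by exact_mod_cast hb
  have h1 := rd_approx b y (K + 1)
  have h2 := rd_approx b y K
  have h3 : |((dlt b (rd b y) (K + 1) : ℤ) : ℝ)| < b + 1 := by
    simp only [dlt]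
    push_cast
    rw [abs_le] at h1 h2
    rw [abs_lt]
    rw [pow_succ] at h1
    constructor <;> nlinarith [h1.1, h1.2, h2.1, h2.2]
  have h4 : |dlt b (rd b y) (K + 1)| < (b : ℤ) + 1 := by
    have h5 : ((|dlt b (rd b y) (K + 1)| : ℤ) : ℝ) < (((b : ℤ) + 1 : ℤ) : ℝ) := by
      push_cast
      exact h3
    exact_mod_cast h5
  linarith

/-- the variation is bounded by the roughness -/
theorem vt_le_rough (b : ℕ) (hb : 2 ≤ b) (y : ℝ) (N : ℕ) :
    vt b y N ≤ |rd b y 0| + b * (rough b y N : ℤ) := by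
  unfold vt V rough
  rw [Finset.sum_range_succ', add_comm, Finset.card_filter]
  push_cast
  rw [Finset.mul_sum]
  apply add_le_add (le_of_eq rfl)
  have e1 : ∑ k ∈ Icc 1 N, (b : ℤ) * (if ¬ (digit b y k = 0 ∧ digit b y (k + 1) = 0) ∧
      ¬ (digit b y k = b - 1 ∧ digit b y (k + 1) = b - 1) then 1 else 0) =
      ∑ k ∈ range N, (b : ℤ) * (if ¬ (digit b y (k + 1) = 0 ∧ digit b y (k + 2) = 0) ∧
      ¬ (digit b y (k + 1) = b - 1 ∧ digit b y (k + 2) = b - 1) then 1 else 0) := by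
    rw [Finset.range_eq_Ico, Finset.sum_Ico_add' (fun k => (b : ℤ) *
      (if ¬ (digit b y k = 0 ∧ digit b y (k + 1) = 0) ∧
      ¬ (digit b y k = b - 1 ∧ digit b y (k + 1) = b - 1) then 1 else 0)) 0 N 1]
    rfl
  rw [e1]
  apply Finset.sum_le_sum
  intro k _
  split_ifs with hc
  · rw [mul_one]; exact abs_dlt_rd_le b hb y k
  · rw [mul_zero]
    rw [not_and_or, not_not, not_not] at hc
    rcases hc with hc | hc
    · rw [dlt_zero_of_zero b hb y k hc.1 hc.2, abs_zero]
    · rw [dlt_zero_of_top b hb y k hc.1 hc.2, abs_zero]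

/-- constant pairs of digits where the nearest integers have no jump -/
lemma digits_of_dlt_zero (b : ℕ) (hb : 2 ≤ b) (y : ℝ) (K : ℕ)
    (h1 : dlt b (rd b y) (K + 1) = 0) (h2 : dlt b (rd b y) (K + 2) = 0) :
    (digit b y (K + 1) = 0 ∧ digit b y (K + 2) = 0) ∨
      (digit b y (K + 1) = b - 1 ∧ digit b y (K + 2) = b - 1) := by
  have hb2 : (2 : ℝ) ≤ b := by exact_mod_cast hb
  have hb0 : (0 : ℝ) < b := by linarith
  simp only [dlt] at h1 h2
  have e1 : rd b y (K + 1) = b * rd b y K := by linarith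
  have e2 : rd b y (K + 2) = b * (b * rd b y K) := by
    rw [← e1]; linarith
  have h3 := rd_approx b y (K + 2)
  rw [e2] at h3
  push_cast at h3
  have h4 : |(rd b y K : ℝ) - y * (b : ℝ) ^ K| * (b * b) ≤ 1 / 2 := by
    have e3 : (b : ℝ) * (b * (rd b y K : ℝ)) - (b : ℝ) ^ (K + 2) * y =
        ((rd b y K : ℝ) - y * (b : ℝ) ^ K) * (b * b) := by
      rw [pow_add]; ring
    rw [e3, abs_mul, abs_of_pos (mul_pos hb0 hb0)] at h3
    exact h3
  set m := rd b y K with hm
  set f := ⌊y * (b : ℝ) ^ K⌋ with hf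
  set r := Int.fract (y * (b : ℝ) ^ K) with hr
  have hfr : (f : ℝ) + r = y * (b : ℝ) ^ K := Int.floor_add_fract _
  have r0 : 0 ≤ r := Int.fract_nonneg _
  have r1 : r < 1 := Int.fract_lt_one _
  have hbb : (4 : ℝ) ≤ b * b := by nlinarith
  have h5 : |(m : ℝ) - y * (b : ℝ) ^ K| ≤ 1 / 8 := by
    have h0 := abs_nonneg ((m : ℝ) - y * (b : ℝ) ^ K)
    nlinarith
  have f1 := fract_succ b hb y K
  have f2 := fract_succ b hb y (K + 1)
  rw [show K + 1 + 1 = K + 2 from rfl] at f2
  have n1 := Int.fract_nonneg (y * (b : ℝ) ^ (K + 1))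
  have l1 := Int.fract_lt_one (y * (b : ℝ) ^ (K + 1))
  have n2 := Int.fract_nonneg (y * (b : ℝ) ^ (K + 2))
  have l2 := Int.fract_lt_one (y * (b : ℝ) ^ (K + 2))
  rw [← hr] at f1
  rcases le_or_gt (y * (b : ℝ) ^ K) m with hle | hlt
  · rcases eq_or_lt_of_le hle with heq | hlt'
    · -- exact
      left
      have hfm : f = m := by rw [hf, heq]; exact Int.floor_intCast m
      have hr0 : r = 0 := by rw [hr, heq]; exact Int.fract_intCast m
      rw [hr0, mul_zero, zero_sub] at f1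
      have d1 : digit b y (K + 1) = 0 := by
        have a : ((digit b y (K + 1) : ℤ) : ℝ) ≤ 0 := by linarith
        have a' : (-1 : ℝ) < ((digit b y (K + 1) : ℤ) : ℝ) := by linarith
        have b1 : digit b y (K + 1) ≤ 0 := by exact_mod_cast a
        have b2 : -1 < digit b y (K + 1) := by exact_mod_cast a'
        omega
      rw [f1, d1] at f2
      push_cast at f2
      have d2 : digit b y (K + 2) = 0 := by
        have a : ((digit b y (K + 2) : ℤ) : ℝ) ≤ 0 := by linarith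
        have a' : (-1 : ℝ) < ((digit b y (K + 2) : ℤ) : ℝ) := by linarith
        have b1 : digit b y (K + 2) ≤ 0 := by exact_mod_cast a
        have b2 : -1 < digit b y (K + 2) := by exact_mod_cast a'
        omega
      exact ⟨d1, d2⟩
    · right
      have h6 : (m : ℝ) - y * (b : ℝ) ^ K = |(m : ℝ) - y * (b : ℝ) ^ K| :=
        (abs_of_pos (by linarith)).symm
      have hfm : f = m - 1 := by
        rw [hf, Int.floor_eq_iff]
        push_cast
        constructor <;> linarith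
      have hfm' : (f : ℝ) = m - 1 := by rw [hfm]; push_cast; ring
      -- 1 - r is small
      have h7 : (1 - r) * (b * b) ≤ 1 / 2 := by
        have : 1 - r = (m : ℝ) - y * (b : ℝ) ^ K := by rw [← hfr, hfm']; ring
        rw [this, h6]; exact h4
      have h8 : 0 < 1 - r := by linarith
      have hd1 : digit b y (K + 1) = b - 1 := by
        have a : ((digit b y (K + 1) : ℤ) : ℝ) < (b : ℝ) := by nlinarith
        have a' : (b : ℝ) - 2 < ((digit b y (K + 1) : ℤ) : ℝ) := by nlinarith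
        have b1 : digit b y (K + 1) < (b : ℤ) := by exact_mod_cast a
        have b2 : (b : ℤ) - 2 < digit b y (K + 1) := by
          have : (((b : ℤ) - 2 : ℤ) : ℝ) < ((digit b y (K + 1) : ℤ) : ℝ) := by push_cast; exact a'
          exact_mod_cast this
        omega
      refine ⟨hd1, ?_⟩
      rw [hd1] at f1
      push_cast at f1
      have h9 : 1 - Int.fract (y * (b : ℝ) ^ (K + 1)) = b * (1 - r) := by rw [f1]; ring
      have a : ((digit b y (K + 2) : ℤ) : ℝ) < (b : ℝ) := by nlinarith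
      have a' : (b : ℝ) - 2 < ((digit b y (K + 2) : ℤ) : ℝ) := by nlinarith
      have b1 : digit b y (K + 2) < (b : ℤ) := by exact_mod_cast a
      have b2 : (b : ℤ) - 2 < digit b y (K + 2) := by
        have : (((b : ℤ) - 2 : ℤ) : ℝ) < ((digit b y (K + 2) : ℤ) : ℝ) := by push_cast; exact a'
        exact_mod_cast this
      omega
  · left
    have h6 : y * (b : ℝ) ^ K - m = |(m : ℝ) - y * (b : ℝ) ^ K| := by
      rw [abs_of_neg (by linarith)]; ring
    have hfm : f = m := by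
      rw [hf, Int.floor_eq_iff]
      constructor <;> linarith
    have hfm' : (f : ℝ) = m := by rw [hfm]
    have h7 : r * (b * b) ≤ 1 / 2 := by
      have : r = y * (b : ℝ) ^ K - m := by rw [← hfr, hfm']; ring
      rw [this, h6]; exact h4
    have hd1 : digit b y (K + 1) = 0 := by
      have a : ((digit b y (K + 1) : ℤ) : ℝ) < 1 := by nlinarith
      have a' : (-1 : ℝ) < ((digit b y (K + 1) : ℤ) : ℝ) := by nlinarith
      have b1 : digit b y (K + 1) < 1 := by exact_mod_cast a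
      have b2 : -1 < digit b y (K + 1) := by exact_mod_cast a'
      omega
    refine ⟨hd1, ?_⟩
    rw [hd1] at f1
    push_cast at f1
    have a : ((digit b y (K + 2) : ℤ) : ℝ) < 1 := by nlinarith
    have a' : (-1 : ℝ) < ((digit b y (K + 2) : ℤ) : ℝ) := by nlinarith
    have b1 : digit b y (K + 2) < 1 := by exact_mod_cast a
    have b2 : -1 < digit b y (K + 2) := by exact_mod_cast a'
    omega

/-- the roughness is bounded by the variation -/
theorem rough_le_vt (b : ℕ) (hb : 2 ≤ b) (y : ℝ) (N : ℕ) :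
    (rough b y N : ℤ) ≤ 2 * vt b y (N + 1) := by
  unfold vt V rough
  rw [Finset.card_filter]
  push_cast
  have e1 : ∑ k ∈ Icc 1 N, (if ¬ (digit b y k = 0 ∧ digit b y (k + 1) = 0) ∧
      ¬ (digit b y k = b - 1 ∧ digit b y (k + 1) = b - 1) then (1 : ℤ) else 0) =
      ∑ k ∈ range N, (if ¬ (digit b y (k + 1) = 0 ∧ digit b y (k + 2) = 0) ∧
      ¬ (digit b y (k + 1) = b - 1 ∧ digit b y (k + 2) = b - 1) then (1 : ℤ) else 0) := by
    rw [Finset.range_eq_Ico, Finset.sum_Ico_add' (fun k =>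
      (if ¬ (digit b y k = 0 ∧ digit b y (k + 1) = 0) ∧
      ¬ (digit b y k = b - 1 ∧ digit b y (k + 1) = b - 1) then (1 : ℤ) else 0)) 0 N 1]
    rfl
  rw [e1]
  have h1 : ∀ k ∈ range N, (if ¬ (digit b y (k + 1) = 0 ∧ digit b y (k + 2) = 0) ∧
      ¬ (digit b y (k + 1) = b - 1 ∧ digit b y (k + 2) = b - 1) then (1 : ℤ) else 0) ≤
      |dlt b (rd b y) (k + 1)| + |dlt b (rd b y) (k + 2)| := by
    intro k _
    have n1 := abs_nonneg (dlt b (rd b y) (k + 1))
    have n2 := abs_nonneg (dlt b (rd b y) (k + 2))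
    split_ifs with hc
    · by_contra hcon
      have z1 : |dlt b (rd b y) (k + 1)| = 0 := by omega
      have z2 : |dlt b (rd b y) (k + 2)| = 0 := by omega
      rw [abs_eq_zero] at z1 z2
      rcases digits_of_dlt_zero b hb y k z1 z2 with h | h
      · exact hc.1 h
      · exact hc.2 h
    · positivity
  refine (Finset.sum_le_sum h1).trans ?_
  rw [Finset.sum_add_distrib]
  have s1 : ∑ k ∈ range N, |dlt b (rd b y) (k + 1)| ≤ ∑ k ∈ range (N + 1 + 1), |dlt b (rd b y) k| := by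
    rw [Finset.sum_range_succ' (fun k => |dlt b (rd b y) k|) (N + 1), Finset.sum_range_succ]
    have := abs_nonneg (dlt b (rd b y) 0)
    have := abs_nonneg (dlt b (rd b y) (N + 1))
    linarith
  have s2 : ∑ k ∈ range N, |dlt b (rd b y) (k + 2)| ≤ ∑ k ∈ range (N + 1 + 1), |dlt b (rd b y) k| := by
    rw [Finset.sum_range_succ' (fun k => |dlt b (rd b y) k|) (N + 1),
      Finset.sum_range_succ' (fun k => |dlt b (rd b y) (k + 1)|) N]
    have := abs_nonneg (dlt b (rd b y) 0)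
    have := abs_nonneg (dlt b (rd b y) (0 + 1))
    have e : ∀ k, dlt b (rd b y) (k + 1 + 1) = dlt b (rd b y) (k + 2) := fun _ => rfl
    simp_rw [e]
    linarith
  linarith

end Pool.Agent.N358.DR
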