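import Pool.Agent.N358.DR.Base

/-!
The elements of `ℚ(x)` which are algebraic integers up to powers of `b` are at most polynomially
less sparse than `x`.
-/

set_option autoImplicit false

namespace Pool.Agent.N358.DR

open Polynomial Finset Pool.Agent.H323R2 IntermediateField

/-- every element of `ℚ(x)` is, up to a nonzero integer factor, an integer polynomial in `x` -/
lemma exists_int_poly (x : ℝ) (halg : IsAlgebraic ℚ x) (y : ℝ) (hy : y ∈ ℚ⟮x⟯) :
    ∃ (w : ℤ) (g : ℤ[X]), w ≠ 0 ∧ (w : ℝ) * y = (g.map (Int.castRingHom ℝ)).eval x := by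
  have hy : y ∈ (ℚ⟮x⟯).toSubalgebra := hy
  rw [adjoin_simple_toSubalgebra_of_isAlgebraic halg, Algebra.adjoin_singleton_eq_range_aeval] at hy
  obtain ⟨f, hf⟩ := hy
  obtain ⟨w, hw, hmap⟩ := IsLocalization.integerNormalization_spec (nonZeroDivisors ℤ) f
  refine ⟨w, IsLocalization.integerNormalization (nonZeroDivisors ℤ) f,
    nonZeroDivisors.ne_zero hw, ?_⟩
  have h1 : (IsLocalization.integerNormalization (nonZeroDivisors ℤ) f).map (Int.castRingHom ℝ) =
      ((IsLocalization.integerNormalization (nonZeroDivisors ℤ) f).map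
        (algebraMap ℤ ℚ)).map (algebraMap ℚ ℝ) := by
    rw [Polynomial.map_map]; congr 1
  have h2 : (aeval x) f = (y : ℝ) := hf
  rw [h1, hmap, Polynomial.eval_map_algebraMap, ← h2]
  simp

/-- algebraic integers of `ℚ(x)` -/
theorem dom_of_integral (b : ℕ) (hb : 2 ≤ b) (x : ℝ) (halg : IsAlgebraic ℚ x) (z : ℝ)
    (hz : z ∈ ℚ⟮x⟯) (hint : IsIntegral ℤ z) : Dom b x z := by
  obtain ⟨w, g, hw, hg⟩ := exists_int_poly x halg z hz
  have h1 : Dom b x ((w : ℝ) * z) := by
    rw [hg]; exact (Dom.refl b x).poly hb g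
  have h2 : Dom b x ((w.natAbs : ℝ) * z) := by
    rcases Int.natAbs_eq w with h | h
    · rw [h] at h1
      simpa using h1
    · rw [h] at h1
      have h3 := h1.neg hb
      simpa using h3
  exact h2.trans (dom_of_nat_mul b hb w.natAbs (Int.natAbs_ne_zero.2 hw) z hint)

/-- algebraic integers of `ℚ(x)` up to powers of `b` -/
theorem dom_of_base_integral (b : ℕ) (hb : 2 ≤ b) (x : ℝ) (halg : IsAlgebraic ℚ x) (y : ℝ)
    (hy : y ∈ ℚ⟮x⟯) (s : ℕ) (hint : IsIntegral ℤ ((b : ℝ) ^ s * y)) : Dom b x y := by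
  have hb0 : (b : ℝ) ≠ 0 := by positivity
  have hmem : (b : ℝ) ^ s * y ∈ ℚ⟮x⟯ := by
    apply mul_mem _ hy
    apply pow_mem
    exact _root_.natCast_mem _ b
  have h1 := dom_of_integral b hb x halg _ hmem hint
  have h2 : ∀ s : ℕ, ∀ z : ℝ, Dom b x ((b : ℝ) ^ s * z) → Dom b x z := by
    intro s
    induction s with
    | zero => intro z h; simpa using h
    | succ s ih =>
      intro z h
      apply ih
      have h3 := h.trans (dom_div_base b hb _)
      have e : (b : ℝ) ^ (s + 1) * z / b = (b : ℝ) ^ s * z := by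
        rw [pow_succ]; field_simp
      rwa [e] at h3
  exact h2 s y h1

end Pool.Agent.N358.DR
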