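import Pool.Agent.N358.DR.Rel

/-!
Main comparison theorems.
-/

set_option autoImplicit false

namespace Pool.Agent.N358.DR

open Polynomial Finset Pool.Agent.H323R2 IntermediateField

lemma rough_mono (b : ℕ) (y : ℝ) : Monotone (rough b y) := by
  intro M N h
  unfold rough
  apply Finset.card_le_card
  apply Finset.filter_subset_filter
  exact Finset.Icc_subset_Icc le_rfl h

lemma fails_mono (Q : ℤ[X]) (e : ℤ) (g : ℕ → ℤ) : Monotone (fails Q e g) := by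
  intro M N h
  unfold fails
  apply Finset.card_le_card
  apply Finset.filter_subset_filter
  exact Finset.Icc_subset_Icc le_rfl h

lemma absorb (A : ℝ) (m κ : ℕ) : ∃ C : ℕ, ∀ r F : ℕ → ℕ, Monotone F → r 0 = 0 →
    (∀ n, (r n : ℝ) ≤ A * (1 + (F (m * (n + 1)) : ℝ)) ^ κ) →
    ∀ n, r n ≤ C * (1 + F (C * n)) ^ C := by
  obtain ⟨C', hC'⟩ := exists_nat_ge A
  refine ⟨C' + 2 * m + κ, fun r F hF hr h n => ?_⟩
  rcases Nat.eq_zero_or_pos n with rfl | hn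
  · rw [hr]; exact Nat.zero_le _
  set C := C' + 2 * m + κ with hC
  have h1 := h n
  have h2 : F (m * (n + 1)) ≤ F (C * n) := hF (by
    calc m * (n + 1) ≤ m * (2 * n) := Nat.mul_le_mul_left _ (by omega)
      _ = (2 * m) * n := by ring
      _ ≤ C * n := Nat.mul_le_mul_right _ (by omega))
  have h3 : (1 + (F (m * (n + 1)) : ℝ)) ^ κ ≤ (1 + (F (C * n) : ℝ)) ^ C := by
    have a : (1 : ℝ) + (F (m * (n + 1)) : ℝ) ≤ 1 + (F (C * n) : ℝ) := by
      have : (F (m * (n + 1)) : ℝ) ≤ (F (C * n) : ℝ) := by exact_mod_cast h2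
      linarith
    refine (pow_le_pow_left₀ (by positivity) a _).trans (pow_le_pow_right₀ ?_ (by omega))
    have : (0 : ℝ) ≤ (F (C * n) : ℝ) := Nat.cast_nonneg _
    linarith
  have h4 : A ≤ (C : ℝ) := hC'.trans (by exact_mod_cast (by omega : C' ≤ C))
  have h5 : (r n : ℝ) ≤ (C : ℝ) * (1 + (F (C * n) : ℝ)) ^ C := by
    refine h1.trans ?_
    calc A * (1 + (F (m * (n + 1)) : ℝ)) ^ κ ≤ (C : ℝ) * (1 + (F (m * (n + 1)) : ℝ)) ^ κ :=
          mul_le_mul_of_nonneg_right h4 (by positivity)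
      _ ≤ _ := mul_le_mul_of_nonneg_left h3 (by positivity)
  exact_mod_cast h5

lemma rough_zero (b : ℕ) (y : ℝ) : rough b y 0 = 0 := by
  unfold rough; simp

lemma rough_le_real (b : ℕ) (hb : 2 ≤ b) (y : ℝ) (n : ℕ) :
    (rough b y n : ℝ) ≤ 2 * (vt b y (n + 1) : ℝ) := by
  have := rough_le_vt b hb y n
  exact_mod_cast this

/-- comparison of the roughness of `y` and of `x` -/
theorem rough_le_of_dom (b : ℕ) (hb : 2 ≤ b) (x y : ℝ) (h : Dom b x y) :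
    ∃ C : ℕ, ∀ n, rough b y n ≤ C * (1 + rough b x (C * n)) ^ C := by
  obtain ⟨C1, h1⟩ := h
  set u : ℝ := |(rd b x 0 : ℝ)| with hu
  obtain ⟨C, hC⟩ := absorb (2 * C1 * (1 + u + b) ^ C1) C1 C1
  refine ⟨C, hC _ _ (rough_mono b x) (rough_zero b y) fun n => ?_⟩
  have h2 := rough_le_real b hb y n
  have h3 := h1 (n + 1)
  have h4 : (vt b x (C1 * (n + 1)) : ℝ) ≤ u + b * (rough b x (C1 * (n + 1)) : ℝ) := by
    have := vt_le_rough b hb x (C1 * (n + 1))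
    have h5 : ((vt b x (C1 * (n + 1)) : ℤ) : ℝ) ≤
      ((|rd b x 0| + b * (rough b x (C1 * (n + 1)) : ℤ) : ℤ) : ℝ) := by exact_mod_cast this
    push_cast at h5
    exact h5
  have hR : (0 : ℝ) ≤ (rough b x (C1 * (n + 1)) : ℝ) := Nat.cast_nonneg _
  have hu0 : 0 ≤ u := abs_nonneg _
  have hb0 : (0 : ℝ) ≤ b := Nat.cast_nonneg _
  have h6 : 1 + (vt b x (C1 * (n + 1)) : ℝ) ≤
      (1 + u + b) * (1 + (rough b x (C1 * (n + 1)) : ℝ)) := by nlinarith
  have h7 : (1 + (vt b x (C1 * (n + 1)) : ℝ)) ^ C1 ≤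
      ((1 + u + b) * (1 + (rough b x (C1 * (n + 1)) : ℝ))) ^ C1 :=
    pow_le_pow_left₀ (by linarith [one_le_vt b x (C1 * (n + 1))]) h6 _
  calc (rough b y n : ℝ) ≤ 2 * (vt b y (n + 1) : ℝ) := h2
    _ ≤ 2 * (C1 * (1 + (vt b x (C1 * (n + 1)) : ℝ)) ^ C1) := by linarith
    _ ≤ 2 * (C1 * ((1 + u + b) * (1 + (rough b x (C1 * (n + 1)) : ℝ))) ^ C1) := by
        apply mul_le_mul_of_nonneg_left _ (by norm_num)
        exact mul_le_mul_of_nonneg_left h7 (Nat.cast_nonneg _)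
    _ = _ := by rw [mul_pow]; ring

/-- the field does not change under multiplication by a nonzero integer -/
lemma mem_adjoin_mul (x y : ℝ) (B : ℤ) (hB : B ≠ 0) (hy : y ∈ ℚ⟮x⟯) : y ∈ ℚ⟮(B : ℝ) * x⟯ := by
  have hBR : (B : ℝ) ≠ 0 := by exact_mod_cast hB
  have hx : x ∈ ℚ⟮(B : ℝ) * x⟯ := by
    have h1 : (B : ℝ) * x ∈ ℚ⟮(B : ℝ) * x⟯ := mem_adjoin_simple_self ℚ _
    have h2 : ((B : ℝ))⁻¹ ∈ ℚ⟮(B : ℝ) * x⟯ := by
      apply inv_mem
      exact _root_.intCast_mem _ B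
    have h3 := mul_mem h2 h1
    rwa [← mul_assoc, inv_mul_cancel₀ hBR, one_mul] at h3
  exact (adjoin_simple_le_iff.2 hx) hy

/-- comparison of the roughness of `y` and the number of failures of a nontrivial relation between
the digits of an expansion of `x` -/
theorem rough_le_fails (b : ℕ) (hb : 2 ≤ b) (x : ℝ) (halg : IsAlgebraic ℚ x) (y : ℝ)
    (hy : y ∈ ℚ⟮x⟯) (s : ℕ) (hint : IsIntegral ℤ ((b : ℝ) ^ s * y)) (G : ℤ) (Q : ℤ[X])
    (hQ : Q ≠ 0) (e : ℤ) :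
    ∃ C : ℕ, ∀ g : ℕ → ℤ, (∀ k, |g k| ≤ G) →
      HasSum (fun k : ℕ => (g k : ℝ) / (b : ℝ) ^ k) x → ∀ n : ℕ,
      rough b y n ≤ C * (1 + fails Q e g (C * n)) ^ C := by
  obtain ⟨B, C0, hB, h0⟩ := fails_all b hb x G Q.natDegree Q le_rfl hQ e
  have halg' : IsAlgebraic ℚ ((B : ℝ) * x) := by
    have : IsAlgebraic ℚ (B : ℝ) := by
      have := isAlgebraic_algebraMap (R := ℚ) (A := ℝ) (B : ℚ)
      simpa using this
    exact this.mul halg
  obtain ⟨C1, h1⟩ := dom_of_base_integral b hb ((B : ℝ) * x) halg' y (mem_adjoin_mul x y B hB hy) s hint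
  obtain ⟨C, hC⟩ := absorb (2 * C1 * (1 + |C0|) ^ C1) C1 C1
  refine ⟨C, fun g hg hs => hC _ _ (fails_mono Q e g) (rough_zero b y) fun n => ?_⟩
  have h2 := rough_le_real b hb y n
  have h3 := h1 (n + 1)
  have h4 := h0 g hg hs (C1 * (n + 1))
  have hF : (0 : ℝ) ≤ (fails Q e g (C1 * (n + 1)) : ℝ) := Nat.cast_nonneg _
  have h5 : C0 * (1 + (fails Q e g (C1 * (n + 1)) : ℝ)) ≤
      |C0| * (1 + (fails Q e g (C1 * (n + 1)) : ℝ)) :=
    mul_le_mul_of_nonneg_right (le_abs_self _) (by linarith)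
  have h6 : 1 + (vt b ((B : ℝ) * x) (C1 * (n + 1)) : ℝ) ≤
      (1 + |C0|) * (1 + (fails Q e g (C1 * (n + 1)) : ℝ)) := by
    linarith
  have h7 : (1 + (vt b ((B : ℝ) * x) (C1 * (n + 1)) : ℝ)) ^ C1 ≤
      ((1 + |C0|) * (1 + (fails Q e g (C1 * (n + 1)) : ℝ))) ^ C1 :=
    pow_le_pow_left₀ (by linarith [one_le_vt b ((B : ℝ) * x) (C1 * (n + 1))]) h6 _
  calc (rough b y n : ℝ) ≤ 2 * (vt b y (n + 1) : ℝ) := h2
    _ ≤ 2 * (C1 * (1 + (vt b ((B : ℝ) * x) (C1 * (n + 1)) : ℝ)) ^ C1) := by linarith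
    _ ≤ 2 * (C1 * ((1 + |C0|) * (1 + (fails Q e g (C1 * (n + 1)) : ℝ))) ^ C1) := by
        apply mul_le_mul_of_nonneg_left _ (by norm_num)
        exact mul_le_mul_of_nonneg_left h7 (Nat.cast_nonneg _)
    _ = _ := by rw [mul_pow]; ring

/-- the polynomial of a relation -/
noncomputable def relPoly (m : ℕ) (q : ℕ → ℤ) : ℤ[X] := ∑ j ∈ range (m + 1), C (q j) * X ^ j

lemma relPoly_coeff (m : ℕ) (q : ℕ → ℤ) (j : ℕ) :
    (relPoly m q).coeff j = if j ∈ range (m + 1) then q j else 0 := by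
  simp only [relPoly, finsetSum_coeff, coeff_C_mul, coeff_X_pow]
  rw [← Finset.sum_filter_add_sum_filter_not (range (m + 1)) (fun l => l = j)]
  have h2 : ∑ l ∈ (range (m + 1)).filter (fun l => ¬ l = j),
      q l * (if j = l then 1 else 0) = 0 := by
    apply Finset.sum_eq_zero
    intro l hl
    have := (Finset.mem_filter.1 hl).2
    rw [if_neg (fun h => this h.symm), mul_zero]
  rw [h2, add_zero]
  by_cases hj : j ∈ range (m + 1)
  · rw [if_pos hj, Finset.filter_eq', if_pos hj]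
    simp
  · rw [if_neg hj, Finset.filter_eq', if_neg hj]
    simp

lemma relPoly_ne_zero (m : ℕ) (q : ℕ → ℤ) (hq : ∃ j, j ≤ m ∧ q j ≠ 0) : relPoly m q ≠ 0 := by
  obtain ⟨j, hj, h⟩ := hq
  intro h0
  have h1 := relPoly_coeff m q j
  rw [h0, coeff_zero, if_pos (Finset.mem_range.2 (by omega))] at h1
  exact h h1.symm

lemma rel_relPoly (m : ℕ) (q : ℕ → ℤ) (g : ℕ → ℤ) (k : ℕ) :
    rel (relPoly m q) g k = ∑ j ∈ range (m + 1), q j * g (k + j) := by
  have hdeg : (relPoly m q).natDegree ≤ m := by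
    apply natDegree_le_iff_coeff_eq_zero.2
    intro j hj
    rw [relPoly_coeff, if_neg]
    rw [Finset.mem_range]; omega
  rw [rel_apply _ _ _ hdeg]
  apply Finset.sum_congr rfl
  intro j hj
  rw [relPoly_coeff, if_pos hj]

lemma fails_relPoly (m : ℕ) (q : ℕ → ℤ) (e : ℤ) (g : ℕ → ℤ) (N : ℕ) :
    fails (relPoly m q) e g N =
      ((Icc 1 N).filter (fun k => ∑ j ∈ range (m + 1), q j * g (k + j) ≠ e)).card := by
  unfold fails
  simp only [rel_relPoly]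

/-- the digits of `x` with `⌊x⌋` at the place `0` -/
noncomputable def dg (b : ℕ) (x : ℝ) (k : ℕ) : ℤ := if k = 0 then ⌊x⌋ else digit b x k

lemma part_dg (b : ℕ) (hb : 2 ≤ b) (x : ℝ) (K : ℕ) : part b (dg b x) K = ⌊x * (b : ℝ) ^ K⌋ := by
  induction K with
  | zero => simp [part, dg]
  | succ K ih =>
    rw [part, ih]
    simp only [dg, Nat.succ_ne_zero, if_false]
    rw [digit_succ b hb]
    ring

lemma digit_nonneg (b : ℕ) (hb : 2 ≤ b) (x : ℝ) (k : ℕ) : 0 ≤ digit b x k :=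
  Int.emod_nonneg _ (by exact_mod_cast (by omega : b ≠ 0))

lemma digit_lt (b : ℕ) (hb : 2 ≤ b) (x : ℝ) (k : ℕ) : digit b x k < b :=
  Int.emod_lt_of_pos _ (by exact_mod_cast (by omega : 0 < b))

lemma abs_dg_le (b : ℕ) (hb : 2 ≤ b) (x : ℝ) (k : ℕ) : |dg b x k| ≤ |⌊x⌋| + b := by
  unfold dg
  split_ifs with h
  · have : (0 : ℤ) ≤ b := by positivity
    linarith
  · rw [abs_of_nonneg (digit_nonneg b hb x k)]
    have := digit_lt b hb x k
    have := abs_nonneg ⌊x⌋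
    linarith

lemma hasSum_dg (b : ℕ) (hb : 2 ≤ b) (x : ℝ) :
    HasSum (fun k : ℕ => (dg b x k : ℝ) / (b : ℝ) ^ k) x := by
  have hb2 : (2 : ℝ) ≤ b := by exact_mod_cast hb
  have hb0 : (0 : ℝ) < b := by linarith
  have hr0 : (0 : ℝ) ≤ 1 / b := by positivity
  have hr1 : (1 : ℝ) / b < 1 := by rw [div_lt_one hb0]; linarith
  have hsum : Summable (fun k : ℕ => (dg b x k : ℝ) / (b : ℝ) ^ k) := by
    refine Summable.of_norm_bounded (g := fun k : ℕ => ((|⌊x⌋| + b : ℤ) : ℝ) * (1 / (b : ℝ)) ^ k)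
      ((summable_geometric_of_lt_one hr0 hr1).mul_left _) ?_
    intro k
    rw [Real.norm_eq_abs, abs_div, abs_of_pos (show (0 : ℝ) < (b : ℝ) ^ k by positivity),
      one_div, inv_pow, ← div_eq_mul_inv]
    apply div_le_div_of_nonneg_right _ (by positivity)
    exact_mod_cast abs_dg_le b hb x k
  refine (hsum.hasSum_iff_tendsto_nat).2 ?_
  rw [← Filter.tendsto_add_atTop_iff_nat 1]
  have h1 : ∀ K : ℕ, ∑ k ∈ range (K + 1), (dg b x k : ℝ) / (b : ℝ) ^ k =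
      (⌊x * (b : ℝ) ^ K⌋ : ℝ) / (b : ℝ) ^ K := by
    intro K
    have h2 := part_eq b hb (dg b x) K
    rw [part_dg b hb] at h2
    rw [h2]
    field_simp
  simp_rw [h1]
  have h3 : Filter.Tendsto (fun K : ℕ => (1 / (b : ℝ)) ^ K) Filter.atTop (nhds 0) :=
    tendsto_pow_atTop_nhds_zero_of_lt_one hr0 hr1
  have h4 : Filter.Tendsto (fun K : ℕ => x - (1 / (b : ℝ)) ^ K) Filter.atTop (nhds x) := by
    simpa using tendsto_const_nhds.sub h3
  refine tendsto_of_tendsto_of_tendsto_of_le_of_le h4 tendsto_const_nhds ?_ ?_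
  · intro K
    have hK : (0 : ℝ) < (b : ℝ) ^ K := by positivity
    change x - (1 / (b : ℝ)) ^ K ≤ (⌊x * (b : ℝ) ^ K⌋ : ℝ) / (b : ℝ) ^ K
    rw [le_div_iff₀ hK, sub_mul, one_div, inv_pow, inv_mul_cancel₀ hK.ne']
    have := Int.lt_floor_add_one (x * (b : ℝ) ^ K)
    linarith
  · intro K
    have hK : (0 : ℝ) < (b : ℝ) ^ K := by positivity
    change (⌊x * (b : ℝ) ^ K⌋ : ℝ) / (b : ℝ) ^ K ≤ x
    rw [div_le_iff₀ hK]
    exact Int.floor_le _

end Pool.Agent.N358.DR
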