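import Pool.Agent.H323R2.Alg

/-!
Algebraic input: if `t` has a pole at every unramified prime above `p`, then
`𝓞 + 𝓞 t + 𝓞 z / p`, with `z` nilpotent modulo `p`, contains `N / u` with `u` nilpotent modulo `p`
and an integer `N` prime to `p`.
-/

set_option autoImplicit false

namespace Pool.Agent.N358.DR

open NumberField Polynomial UniqueFactorizationMonoid Pool.Agent.H323R2 nonZeroDivisors

variable (K : Type) [Field K] [NumberField K]

/-- the radical of `p` and a generator of it modulo `p` -/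
lemma exists_rad (p : ℕ) (hp : p.Prime) :
    ∃ (J : Ideal (𝓞 K)) (z : 𝓞 K) (n : ℕ), 1 ≤ n ∧ J ^ n ≤ Ideal.span {(p : 𝓞 K)} ∧
      (∀ P : Ideal (𝓞 K), P.IsPrime → (p : 𝓞 K) ∈ P → ¬ J ≤ P ^ 2) ∧
      Ideal.span {(p : 𝓞 K)} ⊔ Ideal.span {z} = J ∧
      (∀ u : 𝓞 K, (∀ P : Ideal (𝓞 K), P.IsPrime → (p : 𝓞 K) ∈ P → u ∈ P) → u ∈ J) := by
  classical
  set I : Ideal (𝓞 K) := Ideal.span {(p : 𝓞 K)} with hI
  have hp0 : (p : 𝓞 K) ≠ 0 := by exact_mod_cast hp.ne_zero
  have hI0 : I ≠ 0 := by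
    rw [hI, Ne, Ideal.zero_eq_bot, Ideal.span_singleton_eq_bot]
    exact hp0
  set J := I.radical with hJ
  have hIJ : I ≤ J := Ideal.le_radical
  obtain ⟨n, hn⟩ := I.exists_radical_pow_le_of_fg (IsNoetherian.noetherian _)
  rw [← hJ] at hn
  have hn1 : J ^ (n + 1) ≤ I := (Ideal.pow_le_pow_right (Nat.le_succ n)).trans hn
  obtain ⟨z, hz⟩ := IsDedekindDomain.exists_sup_span_eq hIJ hI0
  refine ⟨J, z, n + 1, Nat.le_add_left 1 n, hn1, ?_, hz, ?_⟩
  · intro P hP hpP hcon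
    have hPm : P.IsMaximal := hP.isMaximal (by
      rintro rfl; exact hp0 (by simpa using hpP))
    have hP0 : P ≠ 0 := by
      rw [Ideal.zero_eq_bot]
      rintro rfl
      exact hp0 (by simpa using hpP)
    set S := (normalizedFactors I).toFinset with hS
    have hSp : ∀ Q ∈ S, Q.IsPrime ∧ (p : 𝓞 K) ∈ Q := by
      intro Q hQ
      rw [hS, Multiset.mem_toFinset] at hQ
      have h1 := prime_of_normalized_factor Q hQ
      refine ⟨Ideal.isPrime_of_prime h1, ?_⟩
      have h2 : Q ∣ I := dvd_of_mem_normalizedFactors hQ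
      rw [Ideal.dvd_iff_le] at h2
      exact h2 (Ideal.mem_span_singleton_self _)
    have hmem : ∀ Q : Ideal (𝓞 K), Q.IsPrime → (p : 𝓞 K) ∈ Q → Q ∈ S := by
      intro Q hQ hpQ
      have hQ0 : Q ≠ ⊥ := by
        rintro rfl
        exact hp0 (by simpa using hpQ)
      have h3 : Prime Q := Ideal.prime_of_isPrime hQ0 hQ
      have h4 : Q ∣ I := Ideal.dvd_iff_le.2 ((Ideal.span_singleton_le_iff_mem _).2 hpQ)
      obtain ⟨Q', hQ', hassoc⟩ := exists_mem_normalizedFactors_of_dvd hI0 h3.irreducible h4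
      rw [associated_iff_eq] at hassoc
      rw [hS, Multiset.mem_toFinset, hassoc]; exact hQ'
    have h2 : ∏ Q ∈ S, Q ≤ J := by
      rw [hJ, Ideal.radical_eq_sInf]
      apply le_sInf
      intro Q hQ
      have hpQ : (p : 𝓞 K) ∈ Q := hQ.1 (Ideal.mem_span_singleton_self _)
      exact Ideal.dvd_iff_le.1 (Finset.dvd_prod_of_mem _ (hmem Q hQ.2 hpQ))
    have hPS : P ∈ S := hmem P hP hpP
    have h5 : P ^ 2 ∣ P * ∏ Q ∈ S.erase P, Q := by
      rw [Finset.mul_prod_erase S (fun Q => Q) hPS]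
      exact Ideal.dvd_iff_le.2 (h2.trans hcon)
    rw [pow_two] at h5
    have h6 : P ∣ ∏ Q ∈ S.erase P, Q := (mul_dvd_mul_iff_left hP0).1 h5
    have hPprime : Prime P := Ideal.prime_of_isPrime (by rwa [Ideal.zero_eq_bot] at hP0) hP
    obtain ⟨Q, hQ, hPQ⟩ := hPprime.exists_mem_finset_dvd h6
    have hQS := Finset.mem_of_mem_erase hQ
    have hle : Q ≤ P := Ideal.dvd_iff_le.1 hPQ
    have hQm : Q.IsMaximal := (hSp Q hQS).1.isMaximal (by
      rintro rfl; exact hp0 (by simpa using (hSp _ hQS).2))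
    have : Q = P := hQm.eq_of_le hP.ne_top hle
    exact Finset.ne_of_mem_erase hQ this
  · intro u hu
    rw [hJ, Ideal.radical_eq_sInf, Ideal.mem_sInf]
    intro P hP
    exact hu P hP.2 (hP.1 (Ideal.mem_span_singleton_self _))

omit [NumberField K] in
lemma mem_sq_of_mul_mem (P : Ideal (𝓞 K)) (hP : P.IsMaximal) (a z : 𝓞 K) (ha : a ∉ P)
    (h : a * z ∈ P ^ 2) : z ∈ P ^ 2 := by
  have h1 : P ⊔ Ideal.span {a} = ⊤ := by
    by_contra hne
    have : P = P ⊔ Ideal.span {a} := hP.eq_of_le hne le_sup_left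
    apply ha
    rw [this]
    exact Ideal.mem_sup_right (Ideal.mem_span_singleton_self a)
  have h2 : Ideal.span {a} ⊔ P ^ 2 = ⊤ := by
    apply Ideal.sup_pow_eq_top
    rw [sup_comm]; exact h1
  have h3 : (1 : 𝓞 K) ∈ Ideal.span {a} ⊔ P ^ 2 := by rw [h2]; trivial
  obtain ⟨v, hv, w, hw, hvw⟩ := Submodule.mem_sup.1 h3
  obtain ⟨c, rfl⟩ := Ideal.mem_span_singleton'.1 hv
  have h4 : z = c * (a * z) + w * z := by linear_combination (-z) * hvw
  rw [h4]
  exact add_mem (Ideal.mul_mem_left _ _ h) (Ideal.mul_mem_right _ _ hw)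

/-- the common denominators of `t` and `z / p` -/
def den (t : K) (p : ℕ) (z : 𝓞 K) : Ideal (𝓞 K) where
  carrier := {a | IsIntegral ℤ ((a : K) * t) ∧ (p : 𝓞 K) ∣ a * z}
  add_mem' := by
    rintro a b ⟨ha, ha'⟩ ⟨hb, hb'⟩
    refine ⟨?_, ?_⟩
    · have := ha.add hb
      rw [← add_mul] at this
      exact_mod_cast this
    · rw [add_mul]; exact dvd_add ha' hb'
  zero_mem' := ⟨by simpa using isIntegral_zero, by simp⟩
  smul_mem' := by
    rintro c a ⟨ha, ha'⟩
    refine ⟨?_, ?_⟩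
    · have := (c.2 : IsIntegral ℤ (c : K)).mul ha
      rw [← mul_assoc] at this
      have e : ((c • a : 𝓞 K) : K) = (c : K) * a := by
        rw [smul_eq_mul]; push_cast; rfl
      rw [e]; exact this
    · rw [smul_eq_mul, mul_assoc]; exact dvd_mul_of_dvd_right ha' _

theorem exists_w (p : ℕ) (hp : p.Prime) (t : K)
    (h : ∀ P : Ideal (𝓞 K), P.IsPrime → (p : 𝓞 K) ∈ P → (p : 𝓞 K) ∈ P ^ 2 ∨
      ∀ a : 𝓞 K, a ∉ P → ¬ IsIntegral ℤ ((a : K) * t)) :
    ∃ (z u α β γ : 𝓞 K) (N : ℤ) (n : ℕ), 1 ≤ n ∧ ¬ (p : ℤ) ∣ N ∧ (p : 𝓞 K) ∣ z ^ n ∧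
      (p : 𝓞 K) ∣ u ^ n ∧ ((α : K) + β * t + γ * (z / p)) * u = N := by
  classical
  obtain ⟨J, z, n, hn, hJn, hJ2, hzJ, hJmem⟩ := exists_rad K p hp
  have hp0 : (p : 𝓞 K) ≠ 0 := by exact_mod_cast hp.ne_zero
  have hpK : (p : K) ≠ 0 := by exact_mod_cast hp.ne_zero
  have hJpow : ∀ u ∈ J, (p : 𝓞 K) ∣ u ^ n := by
    intro u hu
    rw [← Ideal.mem_span_singleton]
    exact hJn (Ideal.pow_mem_pow hu _)
  have hz : z ∈ J := by
    rw [← hzJ]; exact Ideal.mem_sup_right (Ideal.mem_span_singleton_self z)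
  set M := den K t p z with hM
  -- `M` is contained in all primes above `p`
  have hMP : ∀ P : Ideal (𝓞 K), P.IsPrime → (p : 𝓞 K) ∈ P → M ≤ P := by
    intro P hP hpP a ha
    by_contra haP
    have hPm : P.IsMaximal := hP.isMaximal (by
      rintro rfl; exact hp0 (by simpa using hpP))
    rcases h P hP hpP with h1 | h1
    · obtain ⟨c, hc⟩ := ha.2
      have h2 : z ∈ P ^ 2 := by
        apply mem_sq_of_mul_mem K P hPm a z haP
        rw [hc]; exact Ideal.mul_mem_right _ _ h1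
      apply hJ2 P hP hpP
      rw [← hzJ]
      exact sup_le ((Ideal.span_singleton_le_iff_mem _).2 h1)
        ((Ideal.span_singleton_le_iff_mem _).2 h2)
    · exact h1 a haP ha.1
  -- `M` is not zero
  have hM0 : M ≠ 0 := by
    have halg : IsAlgebraic ℤ t :=
      (IsFractionRing.isAlgebraic_iff ℤ ℚ K).2 (IsAlgebraic.of_finite ℚ t)
    obtain ⟨d, hd, hdint⟩ := halg.exists_integral_multiple
    intro h0
    have hmem : ((d * p : ℤ) : 𝓞 K) ∈ M := by
      refine ⟨?_, ?_⟩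
      · have h1 : (((d * p : ℤ) : 𝓞 K) : K) * t = (p : K) * (d • t) := by
          have h2 : (((d * p : ℤ) : 𝓞 K) : K) = ((d * p : ℤ) : K) :=
            map_intCast (algebraMap (𝓞 K) K) (d * p)
          rw [h2, zsmul_eq_mul, Int.cast_mul, Int.cast_natCast]
          ring
        rw [h1]
        have : IsIntegral ℤ (p : K) := by
          have := isIntegral_algebraMap (R := ℤ) (A := K) (x := (p : ℤ))
          simpa using this
        exact this.mul hdint
      · push_cast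
        exact Dvd.intro_left ((d : 𝓞 K)) rfl |>.mul_right z
    rw [h0] at hmem
    have h2 : ((d * p : ℤ) : 𝓞 K) = 0 := by simpa using hmem
    have h3 : (d * p : ℤ) = 0 := by exact_mod_cast h2
    rcases mul_eq_zero.1 h3 with h4 | h4
    · exact hd h4
    · exact hp.ne_zero (by exact_mod_cast h4)
  set I : Ideal (𝓞 K) := Ideal.span {(p : 𝓞 K)} with hI
  have hI0 : I ≠ 0 := by
    rw [hI, Ne, Ideal.zero_eq_bot, Ideal.span_singleton_eq_bot]
    exact hp0
  obtain ⟨u, hu⟩ := IsDedekindDomain.exists_sup_span_eq (I := M * I) (J := M) Ideal.mul_le_left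
    (mul_ne_zero hM0 hI0)
  have huM : u ∈ M := by
    rw [← hu]; exact Ideal.mem_sup_right (Ideal.mem_span_singleton_self u)
  obtain ⟨A, hA⟩ := Ideal.dvd_iff_le.2 ((Ideal.span_singleton_le_iff_mem M).2 huM)
  have hcop : A ⊔ I = ⊤ := by
    have h1 : M * (I ⊔ A) = M * 1 := by
      rw [mul_one, Ideal.mul_sup, ← hA]
      exact hu
    have := mul_left_cancel₀ hM0 h1
    rw [sup_comm, this, Ideal.one_eq_top]
  obtain ⟨N, hN, hNA⟩ := exists_int_mem K p hp A hcop
  have hu0 : u ≠ 0 := by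
    rintro rfl
    have h1 : M * A = 0 := by
      rw [← hA]; simp
    rcases mul_eq_zero.1 h1 with h2 | h2
    · exact hM0 h2
    · rw [h2] at hNA
      have h3 : (N : 𝓞 K) = 0 := by simpa using hNA
      have h4 : N = 0 := by exact_mod_cast h3
      exact hN (h4 ▸ dvd_zero _)
  have huK : (u : K) ≠ 0 := by
    intro h0
    apply hu0
    exact_mod_cast h0
  -- the fractional ideal
  set E : FractionalIdeal (𝓞 K)⁰ K := 1 + FractionalIdeal.spanSingleton _ t +
    FractionalIdeal.spanSingleton _ ((z : K) / p) with hE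
  have h1E : (1 : K) ∈ E := by
    rw [hE]
    refine (FractionalIdeal.mem_add _ _ _).2 ⟨1, (FractionalIdeal.mem_add _ _ _).2
      ⟨1, FractionalIdeal.one_mem_one _, 0, FractionalIdeal.zero_mem _, add_zero _⟩, 0, FractionalIdeal.zero_mem _, add_zero _⟩
  have htE : t ∈ E := by
    rw [hE]
    refine (FractionalIdeal.mem_add _ _ _).2 ⟨t, (FractionalIdeal.mem_add _ _ _).2
      ⟨0, FractionalIdeal.zero_mem _, t, FractionalIdeal.mem_spanSingleton_self _ t, zero_add _⟩, 0,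
      FractionalIdeal.zero_mem _,
      add_zero _⟩
  have hzE : (z : K) / p ∈ E := by
    rw [hE]
    refine (FractionalIdeal.mem_add _ _ _).2 ⟨0, FractionalIdeal.zero_mem _, (z : K) / p,
      FractionalIdeal.mem_spanSingleton_self _ _, zero_add _⟩
  have hE0 : E ≠ 0 := by
    intro h0
    rw [h0] at h1E
    exact one_ne_zero ((FractionalIdeal.mem_zero_iff _).1 h1E)
  have hwE : (N : K) / u ∈ E := by
    rw [← inv_inv E, FractionalIdeal.mem_inv_iff (inv_ne_zero hE0)]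
    intro a ha
    rw [FractionalIdeal.mem_inv_iff hE0] at ha
    have ha1 := ha 1 h1E
    rw [mul_one] at ha1
    obtain ⟨a', ha'⟩ := (FractionalIdeal.mem_one_iff (𝓞 K)⁰).1 ha1
    obtain ⟨r, hr⟩ := (FractionalIdeal.mem_one_iff (𝓞 K)⁰).1 (ha t htE)
    obtain ⟨s, hs⟩ := (FractionalIdeal.mem_one_iff (𝓞 K)⁰).1 (ha _ hzE)
    have haM : a' ∈ M := by
      refine ⟨?_, s, ?_⟩
      · have : ((a' : 𝓞 K) : K) * t = (r : K) := by
          change algebraMap (𝓞 K) K a' * t = algebraMap (𝓞 K) K r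
          rw [ha', hr]
        rw [this]; exact r.2
      · have : ((a' * z : 𝓞 K) : K) = ((p * s : 𝓞 K) : K) := by
          push_cast
          change algebraMap (𝓞 K) K a' * (z : K) = p * algebraMap (𝓞 K) K s
          rw [ha', hs]
          field_simp
        exact_mod_cast this
    have h2 : a' * (N : 𝓞 K) ∈ Ideal.span {u} := by
      rw [hA]; exact Ideal.mul_mem_mul haM hNA
    obtain ⟨c, hc⟩ := Ideal.mem_span_singleton'.1 h2
    rw [FractionalIdeal.mem_one_iff]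
    refine ⟨c, ?_⟩
    have h3 := congrArg (algebraMap (𝓞 K) K) hc
    rw [map_mul, map_mul, map_intCast, ha'] at h3
    have h4 : algebraMap (𝓞 K) K u = (u : K) := rfl
    rw [h4] at h3
    rw [div_mul_eq_mul_div, eq_div_iff huK, h3]
    ring
  obtain ⟨v, hv, w, hw, hvw⟩ := (FractionalIdeal.mem_add _ _ _).1 hwE
  obtain ⟨α', hα', β', hβ', hαβ⟩ := (FractionalIdeal.mem_add _ _ _).1 hv
  obtain ⟨α, hα⟩ := (FractionalIdeal.mem_one_iff _).1 hα'
  obtain ⟨β, hβ⟩ := (FractionalIdeal.mem_spanSingleton _).1 hβ'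
  obtain ⟨γ, hγ⟩ := (FractionalIdeal.mem_spanSingleton _).1 hw
  refine ⟨z, u, α, β, γ, N, n, hn, hN, hJpow z hz, hJpow u (hJmem u fun P hP hpP =>
    hMP P hP hpP huM), ?_⟩
  have e1 : (α : K) + β * t + γ * (z / p) = (N : K) / u := by
    rw [← hvw, ← hαβ, ← hα, ← hβ, ← hγ, Algebra.smul_def, Algebra.smul_def]
  rw [e1, div_mul_cancel₀ _ huK]

end Pool.Agent.N358.DR
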