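import Pool.Agent.N358.DR.Main
import Pool.Agent.N358.DR.Pole

/-!
Power lower bounds for numbers with poles at all unramified primes above a prime `p` not dividing
the base.
-/

set_option autoImplicit false

namespace Pool.Agent.N358.DR

open Polynomial Finset Pool.Agent.H323R2 IntermediateField NumberField

/-- base case: `w = N / u`, `u` nilpotent modulo `p` -/
lemma lower_of_const (p n : ℕ) [Fact p.Prime] (hn : 1 ≤ n) (b : ℕ) (hb : 2 ≤ b) (hbp : ¬ p ∣ b)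
    (w u c : ℝ) (hc : IsIntegral ℤ c) (h : u ^ n = p * c) (N : ℤ) (hN : ¬ (p : ℤ) ∣ N)
    (hwu : w * u = N) :
    ∃ (C : ℝ) (D : ℕ), 0 < C ∧ ∀ M : ℕ, (M : ℝ) ≤ C * (1 + (vt b w M : ℝ)) ^ D := by
  obtain ⟨α, F, hα, hF, hroot⟩ := const_poly p n hn w u c hc h N hN hwu
  obtain ⟨C, hC, hb1⟩ := count_bound_const p b hb (by rwa [Ne, ZMod.natCast_eq_zero_iff]) F α hα hF
    w (1 / 2) hroot
  refine ⟨C, F.natDegree, hC, fun M => ?_⟩
  have h1 := hb1 (rd b w) (rd_approx b w) M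
  have h2 : (vt b w M : ℝ) = (V b (rd b w) M : ℝ) := rfl
  rw [h2]
  linarith

lemma lower_of_dom {b : ℕ} {y w : ℝ} (h : Dom b y w) (C : ℝ) (D : ℕ) (hC : 0 < C)
    (h1 : ∀ M : ℕ, (M : ℝ) ≤ C * (1 + (vt b w M : ℝ)) ^ D) :
    ∃ (C' : ℝ) (m : ℕ), 0 < C' ∧ 1 ≤ m ∧
      ∀ M : ℕ, (M : ℝ) ≤ C' * (1 + (vt b y (m * M) : ℝ)) ^ m := by
  obtain ⟨C2, h2⟩ := h
  refine ⟨C * (1 + C2) ^ D, C2 + C2 * D + 1, by positivity, by omega, fun M => ?_⟩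
  have a3 := one_le_vt b y (C2 * M)
  have a4 : (1 : ℝ) ≤ (1 + (vt b y (C2 * M) : ℝ)) ^ C2 := one_le_pow₀ a3
  have a5 : 1 + (vt b w M : ℝ) ≤ (1 + C2) * (1 + (vt b y (C2 * M) : ℝ)) ^ C2 := by
    have := h2 M
    linarith
  have a6 := one_le_vt b w M
  have a7 : (1 + (vt b y (C2 * M) : ℝ)) ≤ 1 + (vt b y ((C2 + C2 * D + 1) * M) : ℝ) := by
    have := vt_mono b y (M := C2 * M) (N := (C2 + C2 * D + 1) * M)
      (Nat.mul_le_mul_right _ (by omega))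
    have h3 : ((vt b y (C2 * M) : ℤ) : ℝ) ≤ ((vt b y ((C2 + C2 * D + 1) * M) : ℤ) : ℝ) := by
      exact_mod_cast this
    linarith
  calc (M : ℝ) ≤ C * (1 + (vt b w M : ℝ)) ^ D := h1 M
    _ ≤ C * ((1 + C2) * (1 + (vt b y (C2 * M) : ℝ)) ^ C2) ^ D := by
        apply mul_le_mul_of_nonneg_left _ hC.le
        exact pow_le_pow_left₀ (by linarith) a5 _
    _ = C * (1 + C2) ^ D * (1 + (vt b y (C2 * M) : ℝ)) ^ (C2 * D) := by
        rw [mul_pow, ← pow_mul]; ring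
    _ ≤ C * (1 + C2) ^ D * (1 + (vt b y ((C2 + C2 * D + 1) * M) : ℝ)) ^ (C2 + C2 * D + 1) := by
        apply mul_le_mul_of_nonneg_left _ (by positivity)
        exact (pow_le_pow_left₀ (by linarith) a7 _).trans
          (pow_le_pow_right₀ (a3.trans a7) (by omega))

/-- the power bound for `B x` -/
theorem lower_field (b : ℕ) (hb : 2 ≤ b) (p : ℕ) (hp : p.Prime) (hpb : ¬ p ∣ b) (x : ℝ)
    (halg : IsAlgebraic ℚ x) (B : ℤ) (hB : B ≠ 0)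
    (hP : ∀ P : Ideal (𝓞 ℚ⟮x⟯), P.IsPrime → (p : 𝓞 ℚ⟮x⟯) ∈ P → (p : 𝓞 ℚ⟮x⟯) ∈ P ^ 2 ∨
      ∀ a : 𝓞 ℚ⟮x⟯, a ∉ P → ¬ IsIntegral ℤ (((a : ℚ⟮x⟯) : ℝ) * (B * x))) :
    ∃ (C' : ℝ) (m : ℕ), 0 < C' ∧ 1 ≤ m ∧
      ∀ M : ℕ, (M : ℝ) ≤ C' * (1 + (vt b ((B : ℝ) * x) (m * M) : ℝ)) ^ m := by
  have hpf : Fact p.Prime := ⟨hp⟩
  have hint : IsIntegral ℚ x := halg.isIntegral
  have : FiniteDimensional ℚ ℚ⟮x⟯ := adjoin.finiteDimensional hint
  have : NumberField ℚ⟮x⟯ := { to_finiteDimensional := inferInstance }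
  have hBx : (B : ℝ) * x ∈ ℚ⟮x⟯ :=
    mul_mem (_root_.intCast_mem _ B) (mem_adjoin_simple_self ℚ x)
  set t : ℚ⟮x⟯ := ⟨(B : ℝ) * x, hBx⟩ with ht
  obtain ⟨z, u, α, β, γ, N, n, hn, hN, ⟨a, ha⟩, ⟨c, hc⟩, hw⟩ := exists_w ℚ⟮x⟯ p hp t (by
    intro P hPp hpP
    rcases hP P hPp hpP with h | h
    · exact Or.inl h
    · right
      intro a haP hcon
      apply h a haP
      have h1 := hcon.map (((ℚ⟮x⟯).val : ℚ⟮x⟯ →+* ℝ).toIntAlgHom)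
      exact h1)
  have halg' : IsAlgebraic ℚ ((B : ℝ) * x) := by
    have : IsAlgebraic ℚ (B : ℝ) := by
      have := isAlgebraic_algebraMap (R := ℚ) (A := ℝ) (B : ℚ)
      simpa using this
    exact this.mul halg
  have hR : ∀ v : 𝓞 ℚ⟮x⟯, IsIntegral ℤ (((v : ℚ⟮x⟯) : ℝ)) := by
    intro v
    have h1 : IsIntegral ℤ (v : ℚ⟮x⟯) := v.2
    exact h1.map (((ℚ⟮x⟯).val : ℚ⟮x⟯ →+* ℝ).toIntAlgHom)
  have hD : ∀ v : 𝓞 ℚ⟮x⟯, Dom b ((B : ℝ) * x) (((v : ℚ⟮x⟯) : ℝ)) := fun v =>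
    dom_of_integral b hb _ halg' _ (mem_adjoin_mul x _ B hB (v : ℚ⟮x⟯).2) (hR v)
  have hzn : (((z : ℚ⟮x⟯) : ℝ)) ^ n = p * (((a : ℚ⟮x⟯) : ℝ)) := by
    have := congrArg (fun v : 𝓞 ℚ⟮x⟯ => ((v : ℚ⟮x⟯) : ℝ)) ha
    simpa using this
  have hun : (((u : ℚ⟮x⟯) : ℝ)) ^ n = p * (((c : ℚ⟮x⟯) : ℝ)) := by
    have := congrArg (fun v : 𝓞 ℚ⟮x⟯ => ((v : ℚ⟮x⟯) : ℝ)) hc
    simpa using this
  have hwR : ((((α : ℚ⟮x⟯) : ℝ)) + (((β : ℚ⟮x⟯) : ℝ)) * ((B : ℝ) * x) +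
      (((γ : ℚ⟮x⟯) : ℝ)) * ((((z : ℚ⟮x⟯) : ℝ)) / p)) * (((u : ℚ⟮x⟯) : ℝ)) = N := by
    have := congrArg (fun v : ℚ⟮x⟯ => (v : ℝ)) hw
    simpa using this
  obtain ⟨C, D, hC, h1⟩ := lower_of_const p n hn b hb hpb _ _ _ (hR c) hun N hN hwR
  have hzp : Dom b ((B : ℝ) * x) ((((z : ℚ⟮x⟯) : ℝ)) / p) :=
    (hD z).trans (dom_div_nilp p n hn b hb hpb _ _ (hR a) hzn)
  have hdom := (((hD α).add hb ((hD β).mul hb (Dom.refl b _)))).add hb ((hD γ).mul hb hzp)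
  exact lower_of_dom hdom C D hC h1

/-- relations, with the optimal factor -/
lemma fails_factor (b : ℕ) (hb : 2 ≤ b) (G : ℤ) (x : ℝ) (Q : ℤ[X]) (e f h : ℤ)
    (hf : ((b : ℤ) - 1) * f = h * e) :
    ∃ C : ℝ, 0 < C ∧ ∀ g : ℕ → ℤ, (∀ k, |g k| ≤ G) →
      HasSum (fun k : ℕ => (g k : ℝ) / (b : ℝ) ^ k) x → ∀ N : ℕ,
      (vt b (((h * Q.eval (b : ℤ) : ℤ) : ℝ) * x) N : ℝ) ≤ C * (1 + (fails Q e g N : ℝ)) := by
  have hb2 : (2 : ℤ) ≤ b := by exact_mod_cast hb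
  set S1 : ℤ := ∑ j ∈ range (Q.natDegree + 1), |Q.coeff j| with hS1
  have hS0 : 0 ≤ S1 := Finset.sum_nonneg fun _ _ => abs_nonneg _
  set B : ℤ := h * Q.eval (b : ℤ) with hB
  set C0 : ℝ := |(h : ℝ)| * (S1 * |(G : ℝ)|) + |(f : ℝ)| with hC0
  set D : ℝ := |(h : ℝ)| * (S1 * |(G : ℝ)| + |(e : ℝ)|) with hD
  have hb2R : (2 : ℝ) ≤ b := by exact_mod_cast hb
  have hS0R : (0 : ℝ) ≤ S1 := by exact_mod_cast hS0
  have hC00 : 0 ≤ C0 := by positivity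
  have hD0 : 0 ≤ D := by positivity
  refine ⟨(6 * b + 7) * (C0 + |(B : ℝ) * x| + D) + 4 * (b + 1) * C0 + 1, by positivity, ?_⟩
  intro g hg hs N
  have hG : (0 : ℝ) ≤ G := by exact_mod_cast (abs_nonneg _).trans (hg 0)
  have hGa : |(G : ℝ)| = G := abs_of_nonneg hG
  set U : ℕ → ℤ := fun K => h * rel Q (part b g) K + f with hU
  have hap : ∀ K, |(U K : ℝ) - (b : ℝ) ^ K * ((B : ℝ) * x)| ≤ C0 := by
    intro K
    have e1 : ((rel Q (part b g) K : ℤ) : ℝ) - (b : ℝ) ^ K * ((Q.eval (b : ℤ) : ℤ) : ℝ) * x =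
        ∑ j ∈ range (Q.natDegree + 1),
          (Q.coeff j : ℝ) * ((part b g (K + j) : ℝ) - (b : ℝ) ^ (K + j) * x) := by
      rw [rel_apply Q _ _ le_rfl, Polynomial.eval_eq_sum_range]
      push_cast
      rw [Finset.mul_sum, Finset.sum_mul, ← Finset.sum_sub_distrib]
      apply Finset.sum_congr rfl
      intro j _
      rw [pow_add]; ring
    have e2 : |((rel Q (part b g) K : ℤ) : ℝ) - (b : ℝ) ^ K * ((Q.eval (b : ℤ) : ℤ) : ℝ) * x| ≤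
        S1 * |(G : ℝ)| := by
      rw [e1, hS1, hGa]
      push_cast
      rw [Finset.sum_mul]
      refine (Finset.abs_sum_le_sum_abs _ _).trans (Finset.sum_le_sum fun j _ => ?_)
      rw [abs_mul]
      exact mul_le_mul_of_nonneg_left (part_approx b hb g G hg x hs _) (abs_nonneg _)
    have e3 : (U K : ℝ) - (b : ℝ) ^ K * ((B : ℝ) * x) = (h : ℝ) *
        (((rel Q (part b g) K : ℤ) : ℝ) - (b : ℝ) ^ K * ((Q.eval (b : ℤ) : ℤ) : ℝ) * x) + f := by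
      simp only [hU, hB]
      push_cast
      ring
    rw [e3, hC0]
    refine (abs_add_le _ _).trans (add_le_add ?_ le_rfl)
    rw [abs_mul]
    exact mul_le_mul_of_nonneg_left e2 (abs_nonneg _)
  have hV : (V b U N : ℝ) ≤ C0 + |(B : ℝ) * x| + D * (fails Q e g N : ℝ) := by
    have h0 : (|U 0| : ℝ) ≤ C0 + |(B : ℝ) * x| := by
      have h1 := hap 0
      rw [pow_zero, one_mul] at h1
      have h2 := abs_add_le ((U 0 : ℝ) - (B : ℝ) * x) ((B : ℝ) * x)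
      rw [sub_add_cancel] at h2
      linarith
    have e0 : (V b U N : ℝ) = ∑ k ∈ range N, (|dlt b U (k + 1)| : ℝ) + (|U 0| : ℝ) := by
      unfold V
      push_cast
      rw [Finset.sum_range_succ']
      rfl
    have e1 : (fails Q e g N : ℝ) = ∑ k ∈ range N, (if rel Q g (k + 1) ≠ e then (1 : ℝ) else 0) := by
      unfold fails
      rw [Finset.card_filter]
      push_cast
      rw [Finset.range_eq_Ico, Finset.sum_Ico_add' (fun k =>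
        (if rel Q g k ≠ e then (1 : ℝ) else 0)) 0 N 1]
      rfl
    rw [e0, e1, Finset.mul_sum]
    have h3 : ∑ k ∈ range N, (|dlt b U (k + 1)| : ℝ) ≤
        ∑ k ∈ range N, D * (if rel Q g (k + 1) ≠ e then (1 : ℝ) else 0) := by
      apply Finset.sum_le_sum
      intro k _
      have e4 : dlt b U (k + 1) = h * (rel Q g (k + 1) - e) := by
        have := rel_part_succ Q b g k
        simp only [dlt, hU]
        linear_combination h * this - hf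
      split_ifs with hc
      · rw [mul_one, e4, hD]
        push_cast
        rw [abs_mul]
        apply mul_le_mul_of_nonneg_left _ (abs_nonneg _)
        refine (abs_sub _ _).trans (add_le_add ?_ le_rfl)
        rw [hGa]
        exact_mod_cast rel_bound Q g G hg (k + 1)
      · rw [not_not] at hc
        rw [e4, hc]; simp
    linarith
  have h1 := vt_le_V b hb C0 ((B : ℝ) * x) U hap N
  have hF : (0 : ℝ) ≤ (fails Q e g N : ℝ) := Nat.cast_nonneg _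
  have h2 := mul_le_mul_of_nonneg_left hV (show (0 : ℝ) ≤ 6 * b + 7 by positivity)
  have h3 : 0 ≤ C0 + |(B : ℝ) * x| := by positivity
  have h4 : 0 ≤ 4 * ((b : ℝ) + 1) * C0 := by positivity
  have h5 : (0 : ℝ) ≤ (6 * b + 7) * (C0 + |(B : ℝ) * x|) * (fails Q e g N : ℝ) := by positivity
  have h6 : (0 : ℝ) ≤ 4 * ((b : ℝ) + 1) * C0 * (fails Q e g N : ℝ) := by positivity
  have h7 : (0 : ℝ) ≤ (6 * b + 7) * D := by positivity
  nlinarith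

/-- from a polynomial inequality to a power bound, uniformly -/
lemma power_bound' (κ : ℕ) (hκ : 1 ≤ κ) (C : ℝ) (hC : 0 < C) :
    ∃ c : ℝ, 0 < c ∧ ∃ N0 : ℕ, ∀ M : ℕ → ℕ, (∀ N : ℕ, (N : ℝ) ≤ C * (1 + (M N : ℝ)) ^ κ) →
      ∀ N : ℕ, N0 ≤ N → c * (N : ℝ) ^ ((1 : ℝ) / (κ : ℝ)) ≤ (M N : ℝ) := by
  have hκ' : (0 : ℝ) < κ := by exact_mod_cast hκ
  set D : ℝ := C ^ ((1 : ℝ) / (κ : ℝ)) with hD
  have hD0 : 0 < D := Real.rpow_pos_of_pos hC _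
  have hlim : Filter.Tendsto (fun N : ℕ => (N : ℝ) ^ ((1 : ℝ) / (κ : ℝ))) Filter.atTop
      Filter.atTop := (tendsto_rpow_atTop (by positivity)).comp tendsto_natCast_atTop_atTop
  obtain ⟨N0, hN0⟩ := Filter.eventually_atTop.1 (hlim.eventually_ge_atTop (2 * D))
  refine ⟨1 / (2 * D), by positivity, N0, fun M h N hN => ?_⟩
  have hN' := hN0 N hN
  have h1 : (N : ℝ) ^ ((1 : ℝ) / (κ : ℝ)) ≤ D * (1 + (M N : ℝ)) := by
    have h2 := Real.rpow_le_rpow (by positivity) (h N) (show (0 : ℝ) ≤ 1 / (κ : ℝ) by positivity)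
    rw [Real.mul_rpow hC.le (by positivity), ← Real.rpow_natCast, ← Real.rpow_mul (by positivity),
      mul_one_div_cancel hκ'.ne', Real.rpow_one] at h2
    exact h2
  rw [div_mul_eq_mul_div, one_mul, div_le_iff₀ (by positivity)]
  nlinarith

/-- **Main theorem**: power lower bound for the number of failures of a relation. -/
theorem power_main (b : ℕ) (hb : 2 ≤ b) (p : ℕ) (hp : p.Prime) (hpb : ¬ p ∣ b) (x : ℝ)
    (halg : IsAlgebraic ℚ x) (G : ℤ) (Q : ℤ[X]) (e f h : ℤ) (hf : ((b : ℤ) - 1) * f = h * e)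
    (hB : h * Q.eval (b : ℤ) ≠ 0)
    (hP : ∀ P : Ideal (𝓞 ℚ⟮x⟯), P.IsPrime → (p : 𝓞 ℚ⟮x⟯) ∈ P → (p : 𝓞 ℚ⟮x⟯) ∈ P ^ 2 ∨
      ∀ a : 𝓞 ℚ⟮x⟯, a ∉ P →
        ¬ IsIntegral ℤ (((a : ℚ⟮x⟯) : ℝ) * (((h * Q.eval (b : ℤ) : ℤ) : ℝ) * x))) :
    ∃ c δ : ℝ, 0 < c ∧ 0 < δ ∧ ∃ N0 : ℕ, ∀ g : ℕ → ℤ, (∀ k, |g k| ≤ G) →
      HasSum (fun k : ℕ => (g k : ℝ) / (b : ℝ) ^ k) x → ∀ N : ℕ, N0 ≤ N →
        c * (N : ℝ) ^ δ ≤ (fails Q e g N : ℝ) := by
  obtain ⟨C1, m, hC1, hm, h1⟩ := lower_field b hb p hp hpb x halg _ hB hP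
  obtain ⟨C2, hC2, h2⟩ := fails_factor b hb G x Q e f h hf
  obtain ⟨c, hc, N0, h3⟩ := power_bound' m hm (m * ((C1 + 1) * (1 + C2) ^ m)) (by positivity)
  have hm' : (0 : ℝ) < m := by exact_mod_cast hm
  refine ⟨c, 1 / m, hc, by positivity, N0, fun g hg hs N hN => h3 (fails Q e g) (fun N => ?_) N hN⟩
  have a1 := h1 (N / m)
  have a2 := h2 g hg hs (m * (N / m))
  have a3 : (fails Q e g (m * (N / m)) : ℝ) ≤ (fails Q e g N : ℝ) := by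
    exact_mod_cast fails_mono Q e g (Nat.mul_div_le N m)
  have a4 : (N : ℝ) ≤ m * (((N / m : ℕ) : ℝ) + 1) := by
    have : N < m * (N / m + 1) := Nat.lt_mul_div_succ N (by omega)
    exact_mod_cast this.le
  have a5 := one_le_vt b (((h * Q.eval (b : ℤ) : ℤ) : ℝ) * x) (m * (N / m))
  have hF : (0 : ℝ) ≤ (fails Q e g N : ℝ) := Nat.cast_nonneg _
  have a6 : 1 + (vt b (((h * Q.eval (b : ℤ) : ℤ) : ℝ) * x) (m * (N / m)) : ℝ) ≤
      (1 + C2) * (1 + (fails Q e g N : ℝ)) := by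
    have := mul_le_mul_of_nonneg_left a3 hC2.le
    nlinarith
  have a7 := pow_le_pow_left₀ (by linarith) a6 m
  have a8 : (1 : ℝ) ≤ ((1 + C2) * (1 + (fails Q e g N : ℝ))) ^ m := by
    apply one_le_pow₀
    nlinarith
  calc (N : ℝ) ≤ m * (((N / m : ℕ) : ℝ) + 1) := a4
    _ ≤ m * (C1 * ((1 + C2) * (1 + (fails Q e g N : ℝ))) ^ m + 1) := by
        apply mul_le_mul_of_nonneg_left _ hm'.le
        have := mul_le_mul_of_nonneg_left a7 hC1.le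
        linarith
    _ ≤ m * ((C1 + 1) * ((1 + C2) * (1 + (fails Q e g N : ℝ))) ^ m) := by
        apply mul_le_mul_of_nonneg_left _ hm'.le
        linarith
    _ = _ := by rw [mul_pow]; ring

end Pool.Agent.N358.DR
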