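import Pool.Agent.N358.DR.Digits

/-!
Failures of nontrivial linear relations between consecutive digits of arbitrary expansions with
bounded digits, in terms of the variation.  (The reduction to relations which are not multiples of
`b a_k - a_{k+1}` follows `Pool.Agent.W44.ExpTwoAll`.)
-/

set_option autoImplicit false

namespace Pool.Agent.N358.DR

open Polynomial Finset Pool.Agent.H323R2

/-- the shift on sequences -/
def shift : Module.End ℤ (ℕ → ℤ) where
  toFun a := fun k => a (k + 1)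
  map_add' _ _ := rfl
  map_smul' _ _ := rfl

lemma shift_apply (a : ℕ → ℤ) (k : ℕ) : shift a k = a (k + 1) := rfl

lemma shift_pow_apply (j : ℕ) (a : ℕ → ℤ) (k : ℕ) : (shift ^ j) a k = a (k + j) := by
  induction j generalizing a with
  | zero => simp
  | succ j ih =>
    rw [pow_succ, Module.End.mul_apply, ih, shift_apply]
    congr 1

/-- value of the relation with coefficient polynomial `Q` at the sequence `a` -/
noncomputable def rel (Q : ℤ[X]) (a : ℕ → ℤ) : ℕ → ℤ := aeval shift Q a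

lemma rel_apply (Q : ℤ[X]) (a : ℕ → ℤ) (m : ℕ) (hm : Q.natDegree ≤ m) (k : ℕ) :
    rel Q a k = ∑ j ∈ range (m + 1), Q.coeff j * a (k + j) := by
  unfold rel
  rw [aeval_eq_sum_range' (Nat.lt_succ_of_le hm), LinearMap.sum_apply, Finset.sum_apply]
  apply Finset.sum_congr rfl
  intro j _
  rw [LinearMap.smul_apply, Pi.smul_apply, shift_pow_apply, smul_eq_mul]

lemma rel_mul (P Q : ℤ[X]) (a : ℕ → ℤ) : rel (P * Q) a = rel P (rel Q a) := by
  unfold rel
  rw [map_mul, Module.End.mul_apply]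

lemma rel_X_sub (b : ℤ) (a : ℕ → ℤ) (k : ℕ) : rel (X - C b) a k = a (k + 1) - b * a k := by
  unfold rel
  rw [map_sub, aeval_X, aeval_C, LinearMap.sub_apply, Pi.sub_apply, shift_apply]
  rfl

lemma rel_C_mul (c : ℤ) (Q : ℤ[X]) (a : ℕ → ℤ) (k : ℕ) : rel (C c * Q) a k = c * rel Q a k := by
  unfold rel
  rw [map_mul, Module.End.mul_apply, aeval_C]
  rfl

lemma rel_bound (Q : ℤ[X]) (a : ℕ → ℤ) (G : ℤ) (ha : ∀ k, |a k| ≤ G) (k : ℕ) :
    |rel Q a k| ≤ (∑ j ∈ range (Q.natDegree + 1), |Q.coeff j|) * G := by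
  rw [rel_apply Q a _ le_rfl k, Finset.sum_mul]
  refine (Finset.abs_sum_le_sum_abs _ _).trans (Finset.sum_le_sum fun j _ => ?_)
  rw [abs_mul]
  exact mul_le_mul_of_nonneg_left (ha _) (abs_nonneg _)

/-- dividing a relation by `b a_k - a_{k+1}` -/
lemma div_step (b : ℕ) (hb : 2 ≤ b) (W : ℤ) (e : ℤ) :
    ∃ J : ℕ, ∀ w : ℕ → ℤ, (∀ k, |w k| ≤ W) → ∀ N : ℕ,
      ((Icc 1 N).filter (fun k : ℕ => ((b : ℤ) - 1) * w k ≠ -e)).card ≤
        J * ((Icc 1 N).filter (fun k : ℕ => w (k + 1) - b * w k ≠ e)).card + J := by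
  have hb2 : (2 : ℤ) ≤ b := by exact_mod_cast hb
  set Y : ℤ := ((b : ℤ) - 1) * W + |e| with hY
  obtain ⟨J, hJ⟩ : ∃ J : ℕ, Y < 2 ^ J := by
    refine ⟨Y.toNat, ?_⟩
    have h1 : Y.toNat < 2 ^ Y.toNat := Nat.lt_two_pow_self
    have h2 : Y ≤ (Y.toNat : ℤ) := Int.self_le_toNat Y
    have h3 : ((Y.toNat : ℕ) : ℤ) < ((2 ^ Y.toNat : ℕ) : ℤ) := by exact_mod_cast h1
    push_cast at h3
    linarith
  refine ⟨J, fun w hw N => ?_⟩
  set y : ℕ → ℤ := fun k => ((b : ℤ) - 1) * w k + e with hy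
  have hW : 0 ≤ W := (abs_nonneg _).trans (hw 0)
  have hYb : ∀ k, |y k| ≤ Y := by
    intro k
    simp only [hy, hY]
    refine (abs_add_le _ _).trans ?_
    rw [abs_mul, abs_of_nonneg (by linarith : (0 : ℤ) ≤ (b : ℤ) - 1)]
    have := mul_le_mul_of_nonneg_left (hw k) (by linarith : (0 : ℤ) ≤ (b : ℤ) - 1)
    linarith
  -- a failure occurs soon
  have hfail : ∀ k, y k ≠ 0 → ∃ f, k ≤ f ∧ f < k + J ∧ w (f + 1) - b * w f ≠ e := by
    intro k hk
    by_contra hcon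
    push Not at hcon
    have hstep : ∀ i, i ≤ J → y (k + i) = (b : ℤ) ^ i * y k := by
      intro i
      induction i with
      | zero => intro _; simp
      | succ i ih =>
        intro hi
        have h1 := ih (by omega)
        have h2 := hcon (k + i) (by omega) (by omega)
        have h3 : w (k + i + 1) = b * w (k + i) + e := by linarith
        have h4 : y (k + (i + 1)) = b * y (k + i) := by
          simp only [hy]
          rw [show k + (i + 1) = k + i + 1 by ring, h3]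
          ring
        rw [h4, h1, pow_succ]
        ring
    have h5 := hstep J le_rfl
    have h6 : (1 : ℤ) ≤ |y k| := Int.one_le_abs hk
    have h7 : (2 : ℤ) ^ J ≤ |y (k + J)| := by
      rw [h5, abs_mul, abs_of_nonneg (by positivity : (0 : ℤ) ≤ (b : ℤ) ^ J)]
      calc (2 : ℤ) ^ J = 2 ^ J * 1 := (mul_one _).symm
        _ ≤ (b : ℤ) ^ J * |y k| := mul_le_mul (pow_le_pow_left₀ (by norm_num) hb2 _) h6
            (by norm_num) (by positivity)
    have h8 := hYb (k + J)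
    linarith
  set A := (Icc 1 N).filter (fun k : ℕ => ((b : ℤ) - 1) * w k ≠ -e) with hA
  set B := (Icc 1 N).filter (fun k : ℕ => w (k + 1) - b * w k ≠ e) with hB
  have hsub : A ⊆ (B.biUnion (fun f => Ioc (f - J) f)) ∪ Ioc (N - J) N := by
    intro k hk
    rw [hA, Finset.mem_filter, Finset.mem_Icc] at hk
    have hyk : y k ≠ 0 := by
      intro h
      apply hk.2
      simp only [hy] at h
      linarith
    obtain ⟨f, hf1, hf2, hf3⟩ := hfail k hyk
    rw [Finset.mem_union, Finset.mem_biUnion]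
    by_cases hfN : f ≤ N
    · left
      refine ⟨f, ?_, ?_⟩
      · rw [hB, Finset.mem_filter, Finset.mem_Icc]
        exact ⟨⟨by omega, hfN⟩, hf3⟩
      · rw [Finset.mem_Ioc]; omega
    · right
      rw [Finset.mem_Ioc]; omega
  refine (Finset.card_le_card hsub).trans ((Finset.card_union_le _ _).trans ?_)
  apply Nat.add_le_add
  · refine Finset.card_biUnion_le.trans ?_
    refine (Finset.sum_le_card_nsmul _ _ J ?_).trans ?_
    · intro f _
      rw [Nat.card_Ioc]; omega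
    · rw [smul_eq_mul, mul_comm]
  · rw [Nat.card_Ioc]; omega

/-- the number of `k` in `[1, N]` for which the relation fails -/
noncomputable def fails (Q : ℤ[X]) (e : ℤ) (g : ℕ → ℤ) (N : ℕ) : ℕ :=
  ((Icc 1 N).filter (fun k => rel Q g k ≠ e)).card

/-- the integers `∑_{k ≤ K} g_k b ^ (K - k)` -/
def part (b : ℕ) (g : ℕ → ℤ) : ℕ → ℤ
  | 0 => g 0
  | K + 1 => b * part b g K + g (K + 1)

lemma part_eq (b : ℕ) (hb : 2 ≤ b) (g : ℕ → ℤ) (K : ℕ) :
    (part b g K : ℝ) = (b : ℝ) ^ K * ∑ k ∈ range (K + 1), (g k : ℝ) / (b : ℝ) ^ k := by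
  have hb0 : (b : ℝ) ≠ 0 := by positivity
  induction K with
  | zero => simp [part]
  | succ K ih =>
    rw [Finset.sum_range_succ, part]
    push_cast
    rw [ih, mul_add, pow_succ]
    field_simp

lemma part_approx (b : ℕ) (hb : 2 ≤ b) (g : ℕ → ℤ) (G : ℤ) (hg : ∀ k, |g k| ≤ G) (x : ℝ)
    (hs : HasSum (fun k : ℕ => (g k : ℝ) / (b : ℝ) ^ k) x) (K : ℕ) :
    |(part b g K : ℝ) - (b : ℝ) ^ K * x| ≤ G := by
  have hb2 : (2 : ℝ) ≤ b := by exact_mod_cast hb
  have hb0 : (0 : ℝ) < b := by linarith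
  have hG : (0 : ℝ) ≤ G := by exact_mod_cast (abs_nonneg _).trans (hg 0)
  have h1 := (hasSum_nat_add_iff' (K + 1)).2 hs
  have hr0 : (0 : ℝ) ≤ 1 / b := by positivity
  have hr1 : (1 : ℝ) / b < 1 := by rw [div_lt_one hb0]; linarith
  have h2 : HasSum (fun k : ℕ => (G : ℝ) / (b : ℝ) ^ (K + 1) * (1 / (b : ℝ)) ^ k)
      ((G : ℝ) / (b : ℝ) ^ (K + 1) * (1 - 1 / (b : ℝ))⁻¹) :=
    (hasSum_geometric_of_lt_one hr0 hr1).mul_left _
  have h3 := h1.norm_le_of_bounded h2 (by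
    intro k
    rw [Real.norm_eq_abs, abs_div, abs_of_pos (show (0 : ℝ) < (b : ℝ) ^ (k + (K + 1)) by positivity)]
    have e : (G : ℝ) / (b : ℝ) ^ (K + 1) * (1 / (b : ℝ)) ^ k = G / (b : ℝ) ^ (k + (K + 1)) := by
      rw [pow_add (b : ℝ) k, one_div, inv_pow]; field_simp
    rw [e]
    apply div_le_div_of_nonneg_right _ (by positivity)
    exact_mod_cast hg _)
  rw [part_eq b hb]
  have h4 : (b : ℝ) ^ K * ∑ k ∈ range (K + 1), (g k : ℝ) / (b : ℝ) ^ k - (b : ℝ) ^ K * x =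
      -((b : ℝ) ^ K * (x - ∑ k ∈ range (K + 1), (g k : ℝ) / (b : ℝ) ^ k)) := by ring
  rw [h4, abs_neg, abs_mul, abs_of_pos (show (0 : ℝ) < (b : ℝ) ^ K by positivity)]
  rw [Real.norm_eq_abs] at h3
  have h5 : (b : ℝ) ^ K * ((G : ℝ) / (b : ℝ) ^ (K + 1) * (1 - 1 / (b : ℝ))⁻¹) = G / (b - 1) := by
    have : (b : ℝ) - 1 ≠ 0 := by linarith
    rw [pow_succ]
    have e2 : (1 : ℝ) - 1 / b = (b - 1) / b := by field_simp
    rw [e2]
    field_simp
  have h6 : (G : ℝ) / (b - 1) ≤ G := div_le_self hG (by linarith)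
  calc (b : ℝ) ^ K * |x - ∑ k ∈ range (K + 1), (g k : ℝ) / (b : ℝ) ^ k|
      ≤ (b : ℝ) ^ K * ((G : ℝ) / (b : ℝ) ^ (K + 1) * (1 - 1 / (b : ℝ))⁻¹) :=
        mul_le_mul_of_nonneg_left h3 (by positivity)
    _ = G / (b - 1) := h5
    _ ≤ G := h6

lemma rel_part_succ (Q : ℤ[X]) (b : ℕ) (g : ℕ → ℤ) (K : ℕ) :
    rel Q (part b g) (K + 1) - b * rel Q (part b g) K = rel Q g (K + 1) := by
  rw [rel_apply Q _ _ le_rfl, rel_apply Q _ _ le_rfl, rel_apply Q _ _ le_rfl, Finset.mul_sum,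
    ← Finset.sum_sub_distrib]
  apply Finset.sum_congr rfl
  intro j _
  have : part b g (K + 1 + j) = b * part b g (K + j) + g (K + 1 + j) := by
    rw [show K + 1 + j = (K + j) + 1 by ring]; rfl
  rw [this]; ring

/-- relations with nonzero value at `b` -/
lemma fails_base (b : ℕ) (hb : 2 ≤ b) (G : ℤ) (x : ℝ) (Q : ℤ[X]) (e : ℤ) :
    ∃ C : ℝ, ∀ g : ℕ → ℤ, (∀ k, |g k| ≤ G) →
      HasSum (fun k : ℕ => (g k : ℝ) / (b : ℝ) ^ k) x → ∀ N : ℕ,
      (vt b ((((b : ℤ) - 1) * Q.eval (b : ℤ) : ℤ) * x) N : ℝ) ≤ C * (1 + (fails Q e g N : ℝ)) := by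
  have hb2 : (2 : ℤ) ≤ b := by exact_mod_cast hb
  set S1 : ℤ := ∑ j ∈ range (Q.natDegree + 1), |Q.coeff j| with hS1
  have hS0 : 0 ≤ S1 := Finset.sum_nonneg fun _ _ => abs_nonneg _
  set B : ℤ := ((b : ℤ) - 1) * Q.eval (b : ℤ) with hB
  set C0 : ℝ := ((b : ℝ) - 1) * (S1 * G) + |(e : ℝ)| with hC0
  set D : ℝ := ((b : ℝ) - 1) * (S1 * G + |(e : ℝ)|) with hD
  refine ⟨(6 * b + 7) * (C0 + |(B : ℝ) * x| + D) + 4 * (b + 1) * C0, ?_⟩
  intro g hg hs N
  have hb2R : (2 : ℝ) ≤ b := by exact_mod_cast hb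
  have hG : (0 : ℝ) ≤ G := by exact_mod_cast (abs_nonneg _).trans (hg 0)
  have hS0R : (0 : ℝ) ≤ S1 := by exact_mod_cast hS0
  have hC00 : 0 ≤ C0 := by
    have := abs_nonneg (e : ℝ)
    have : 0 ≤ ((b : ℝ) - 1) * (S1 * G) := mul_nonneg (by linarith) (mul_nonneg hS0R hG)
    linarith
  have hD0 : 0 ≤ D := mul_nonneg (by linarith) (add_nonneg (mul_nonneg hS0R hG) (abs_nonneg _))
  set U : ℕ → ℤ := fun K => ((b : ℤ) - 1) * rel Q (part b g) K + e with hU
  have hap : ∀ K, |(U K : ℝ) - (b : ℝ) ^ K * ((B : ℝ) * x)| ≤ C0 := by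
    intro K
    have e1 : ((rel Q (part b g) K : ℤ) : ℝ) - (b : ℝ) ^ K * ((Q.eval (b : ℤ) : ℤ) : ℝ) * x =
        ∑ j ∈ range (Q.natDegree + 1),
          (Q.coeff j : ℝ) * ((part b g (K + j) : ℝ) - (b : ℝ) ^ (K + j) * x) := by
      rw [rel_apply Q _ _ le_rfl, Polynomial.eval_eq_sum_range]
      push_cast
      rw [Finset.mul_sum, Finset.sum_mul, ← Finset.sum_sub_distrib]
      apply Finset.sum_congr rfl
      intro j _
      rw [pow_add]; ring
    have e2 : |((rel Q (part b g) K : ℤ) : ℝ) - (b : ℝ) ^ K * ((Q.eval (b : ℤ) : ℤ) : ℝ) * x| ≤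
        S1 * G := by
      rw [e1, hS1]
      push_cast
      rw [Finset.sum_mul]
      refine (Finset.abs_sum_le_sum_abs _ _).trans (Finset.sum_le_sum fun j _ => ?_)
      rw [abs_mul]
      exact mul_le_mul_of_nonneg_left (part_approx b hb g G hg x hs _) (abs_nonneg _)
    have e3 : (U K : ℝ) - (b : ℝ) ^ K * ((B : ℝ) * x) = ((b : ℝ) - 1) *
        (((rel Q (part b g) K : ℤ) : ℝ) - (b : ℝ) ^ K * ((Q.eval (b : ℤ) : ℤ) : ℝ) * x) + e := by
      simp only [hU, hB]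
      push_cast
      ring
    rw [e3, hC0]
    refine (abs_add_le _ _).trans (add_le_add ?_ le_rfl)
    rw [abs_mul, abs_of_nonneg (by linarith : (0 : ℝ) ≤ (b : ℝ) - 1)]
    exact mul_le_mul_of_nonneg_left e2 (by linarith)
  have hV : (V b U N : ℝ) ≤ C0 + |(B : ℝ) * x| + D * (fails Q e g N : ℝ) := by
    have h0 : (|U 0| : ℝ) ≤ C0 + |(B : ℝ) * x| := by
      have h1 := hap 0
      rw [pow_zero, one_mul] at h1
      have h2 := abs_add_le ((U 0 : ℝ) - (B : ℝ) * x) ((B : ℝ) * x)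
      rw [sub_add_cancel] at h2
      linarith
    have e0 : (V b U N : ℝ) = ∑ k ∈ range N, (|dlt b U (k + 1)| : ℝ) + (|U 0| : ℝ) := by
      unfold V
      push_cast
      rw [Finset.sum_range_succ']
      rfl
    have e1 : (fails Q e g N : ℝ) = ∑ k ∈ range N, (if rel Q g (k + 1) ≠ e then (1 : ℝ) else 0) := by
      unfold fails
      rw [Finset.card_filter]
      push_cast
      rw [Finset.range_eq_Ico, Finset.sum_Ico_add' (fun k =>
        (if rel Q g k ≠ e then (1 : ℝ) else 0)) 0 N 1]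
      rfl
    rw [e0, e1, Finset.mul_sum]
    have h3 : ∑ k ∈ range N, (|dlt b U (k + 1)| : ℝ) ≤
        ∑ k ∈ range N, D * (if rel Q g (k + 1) ≠ e then (1 : ℝ) else 0) := by
      apply Finset.sum_le_sum
      intro k _
      have e4 : dlt b U (k + 1) = ((b : ℤ) - 1) * (rel Q g (k + 1) - e) := by
        have := rel_part_succ Q b g k
        simp only [dlt, hU]
        linear_combination ((b : ℤ) - 1) * this
      split_ifs with hc
      · rw [mul_one, e4, hD]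
        push_cast
        rw [abs_mul, abs_of_nonneg (by linarith : (0 : ℝ) ≤ (b : ℝ) - 1)]
        apply mul_le_mul_of_nonneg_left _ (by linarith)
        refine (abs_sub _ _).trans (add_le_add ?_ le_rfl)
        exact_mod_cast rel_bound Q g G hg (k + 1)
      · rw [not_not] at hc
        rw [e4, hc]; simp
    linarith
  have h1 := vt_le_V b hb C0 ((B : ℝ) * x) U hap N
  have hF : (0 : ℝ) ≤ (fails Q e g N : ℝ) := Nat.cast_nonneg _
  have h2 := mul_le_mul_of_nonneg_left hV (show (0 : ℝ) ≤ 6 * b + 7 by positivity)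
  have h3 : 0 ≤ C0 + |(B : ℝ) * x| := by positivity
  have h4 : 0 ≤ 4 * ((b : ℝ) + 1) * C0 := by positivity
  have h5 : (0 : ℝ) ≤ (6 * b + 7) * (C0 + |(B : ℝ) * x|) * (fails Q e g N : ℝ) := by positivity
  have h6 : (0 : ℝ) ≤ 4 * ((b : ℝ) + 1) * C0 * (fails Q e g N : ℝ) := by positivity
  have h7 : (0 : ℝ) ≤ (6 * b + 7) * D := by positivity
  nlinarith

/-- all nontrivial relations -/
theorem fails_all (b : ℕ) (hb : 2 ≤ b) (x : ℝ) (G : ℤ) : ∀ (d : ℕ) (Q : ℤ[X]), Q.natDegree ≤ d →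
    Q ≠ 0 → ∀ e : ℤ, ∃ (B : ℤ) (C : ℝ), B ≠ 0 ∧ ∀ g : ℕ → ℤ, (∀ k, |g k| ≤ G) →
      HasSum (fun k : ℕ => (g k : ℝ) / (b : ℝ) ^ k) x → ∀ N : ℕ,
      (vt b ((B : ℝ) * x) N : ℝ) ≤ C * (1 + (fails Q e g N : ℝ)) := by
  have hb2 : (2 : ℤ) ≤ b := by exact_mod_cast hb
  intro d
  induction d with
  | zero =>
    intro Q hd hQ e
    obtain ⟨C, hC⟩ := fails_base b hb G x Q e
    refine ⟨_, C, ?_, hC⟩
    apply mul_ne_zero (by omega)
    have h1 := eq_C_of_natDegree_eq_zero (Nat.le_zero.1 hd)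
    rw [h1, eval_C]
    intro h0
    apply hQ
    rw [h1, h0, C_0]
  | succ d ih =>
    intro Q hd hQ e
    by_cases h0 : Q.eval (b : ℤ) = 0
    · obtain ⟨Q', hQ'⟩ := dvd_iff_isRoot.2 h0
      have hQ'0 : Q' ≠ 0 := by
        rintro rfl
        apply hQ
        rw [hQ', mul_zero]
      have hdeg : Q.natDegree = Q'.natDegree + 1 := by
        rw [hQ', (monic_X_sub_C _).natDegree_mul' hQ'0, natDegree_X_sub_C, add_comm]
      have hc0 : C ((b : ℤ) - 1) * Q' ≠ 0 := mul_ne_zero (by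
        rw [Ne, C_eq_zero]; omega) hQ'0
      obtain ⟨B, C', hB, hC⟩ := ih (C ((b : ℤ) - 1) * Q') ((natDegree_C_mul_le _ _).trans (by omega))
        hc0 (-e)
      set W : ℤ := (∑ j ∈ range (Q'.natDegree + 1), |Q'.coeff j|) * G with hW
      obtain ⟨J, hJ⟩ := div_step b hb W e
      refine ⟨B, |C'| * (1 + J), hB, ?_⟩
      intro g hg hs N
      have h1 := hC g hg hs N
      have h2 := hJ (rel Q' g) (rel_bound Q' g G hg) N
      have h3 : fails (C ((b : ℤ) - 1) * Q') (-e) g N =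
          ((Icc 1 N).filter (fun k : ℕ => ((b : ℤ) - 1) * rel Q' g k ≠ -e)).card := by
        unfold fails
        simp only [rel_C_mul]
      have h4 : fails Q e g N =
          ((Icc 1 N).filter (fun k : ℕ => rel Q' g (k + 1) - b * rel Q' g k ≠ e)).card := by
        unfold fails
        rw [hQ']
        simp only [rel_mul, rel_X_sub]
      rw [← h3, ← h4] at h2
      have h5 : (fails (C ((b : ℤ) - 1) * Q') (-e) g N : ℝ) ≤ J * (fails Q e g N : ℝ) + J := by
        exact_mod_cast h2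
      have hF : (0 : ℝ) ≤ (fails Q e g N : ℝ) := Nat.cast_nonneg _
      have hF' : (0 : ℝ) ≤ (fails (C ((b : ℤ) - 1) * Q') (-e) g N : ℝ) := Nat.cast_nonneg _
      calc (vt b ((B : ℝ) * x) N : ℝ) ≤ C' * (1 + (fails (C ((b : ℤ) - 1) * Q') (-e) g N : ℝ)) := h1
        _ ≤ |C'| * (1 + (fails (C ((b : ℤ) - 1) * Q') (-e) g N : ℝ)) :=
            mul_le_mul_of_nonneg_right (le_abs_self _) (by linarith)
        _ ≤ |C'| * ((1 + J) * (1 + (fails Q e g N : ℝ))) := by
            apply mul_le_mul_of_nonneg_left _ (abs_nonneg _)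
            nlinarith
        _ = _ := by ring
    · obtain ⟨C, hC⟩ := fails_base b hb G x Q e
      exact ⟨_, C, mul_ne_zero (by omega) h0, hC⟩

end Pool.Agent.N358.DR
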